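import Pool.Agent.N246.BX.Osc

/-! `BMO` into `BMO_X` forces the reverse embedding, for uniform quasi-triangle constants. -/

set_option autoImplicit false
open MeasureTheory Set Filter Topology Metric
open scoped ENNReal NNReal

namespace Pool.Agent.N246.BX

open Pool.Agent.R884.BMOStar

variable {n : ℕ}

/-- The constants in the quasi-triangle inequalities of the family are uniformly bounded (for a
family of Banach function spaces one takes `K = 1`). -/
def UniformQuasiTriangle (X : Family n) : Prop :=
  ∃ K : ℝ≥0, ∀ (Q : Cube n) (f g : (Fin n → ℝ) → ℝ), AEMeasurable f Q.leb → AEMeasurable g Q.leb →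
    X Q (fun x => f x + g x) ≤ K * (X Q f + X Q g)

theorem positive (hn : 1 ≤ n) {X : Family n} (hX : ∀ Q, IsQuasiBanachFunctionNorm Q (X Q))
    (hK : UniformQuasiTriangle X) (hN : IsNormalized X)
    (hE : Embeds (BMO n) (BMOX X) (bmoX L1) (bmoX X)) :
    Embeds (BMOX X) (BMO n) (bmoX X) (bmoX L1) := by
  obtain ⟨K, hK⟩ := hK
  obtain ⟨c, C0, hc, hcC⟩ := hN
  obtain ⟨_, C, hC⟩ := hE
  have hcr : (0 : ℝ) < c := by exact_mod_cast hc
  -- the parameters
  set κ : ℝ := (K : ℝ) + 1 with hκ
  have hκ0 : 0 < κ := by positivity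
  set Λ : ℝ := 4 * κ / c with hΛ
  have hΛ0 : 0 < Λ := by positivity
  obtain ⟨m, hm⟩ := exists_nat_gt (4 * 5 ^ n + 4 * κ * (C * (8 * 30 ^ n)) / c + 1)
  have hmpos : 4 * κ * (C * (8 * 30 ^ n)) / c + 1 < (m : ℝ) - 4 * 5 ^ n := by linarith
  have hm1 : 4 * 5 ^ n < (m : ℝ) := by
    have : (0:ℝ) ≤ 4 * κ * (C * (8 * 30 ^ n)) / c := by positivity
    linarith
  -- the main estimate for measurable functions and positive bounds
  have key : ∀ f : (Fin n → ℝ) → ℝ, Measurable f → LocallyIntegrable f → ∀ β : ℝ, 0 < β →
      bmoX X f ≤ ENNReal.ofReal β →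
      bmoX L1 f ≤ ENNReal.ofReal (5 ^ n * 2 ^ m * (2 * Λ)) * ENNReal.ofReal β := by
    intro f hfm hfl β hβ hbX
    have hlev : ∀ Q : Cube n, volume Q.set
        ≤ 2 ^ m * volume ({x | |f x - Q.mean f| ≤ Λ * β} ∩ Q.set) := by
      intro Q
      by_contra hcon
      push Not at hcon
      set G : Set (Fin n → ℝ) := {x | |f x - Q.mean f| ≤ Λ * β} ∩ Q.set with hG
      have hGm : MeasurableSet G :=
        (measurableSet_le (by fun_prop) measurable_const).inter (meas_Q Q)
      have h1 := small hn hX hC hGm Q m (by rw [mul_comm]; exact hcon.le) hm1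
      set B : Set (Fin n → ℝ) := {x | Λ * β < |f x - Q.mean f|} with hB
      have hBm : MeasurableSet B := measurableSet_lt measurable_const (by fun_prop)
      have haG : AEMeasurable (indicator G fun _ => (1 : ℝ)) Q.leb :=
        (measurable_const.indicator hGm).aemeasurable
      have haB : AEMeasurable (indicator B fun _ => (1 : ℝ)) Q.leb :=
        (measurable_const.indicator hBm).aemeasurable
      have h2 : ENNReal.ofReal (Λ * β) * X Q (indicator B fun _ => 1) ≤ ENNReal.ofReal β := by
        have e : ENNReal.ofReal (Λ * β) * X Q (indicator B fun _ => 1)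
            = X Q (fun x => (Λ * β) * indicator B (fun _ => 1) x) := by
          rw [(hX Q).smul _ _ haB, abs_of_pos (by positivity)]
        rw [e]
        refine le_trans ?_ ((le_iSup (fun Q : Cube n => X Q (fun x => f x - Q.mean f)) Q).trans hbX)
        refine (hX Q).mono _ _ (haB.const_mul _) (hfm.sub_const _).aemeasurable
          (Eventually.of_forall fun x => ?_)
        by_cases hx : x ∈ B
        · rw [indicator_of_mem hx, mul_one, abs_of_pos (by positivity)]
          exact le_of_lt hx
        · rw [indicator_of_notMem hx, mul_zero, abs_zero]; exact abs_nonneg _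
      have h3 : X Q (fun _ => 1) ≤ K * (X Q (indicator G fun _ => 1) + X Q (indicator B fun _ => 1)) := by
        refine le_trans ?_ (hK Q _ _ haG haB)
        refine (hX Q).mono _ _ aemeasurable_const (haG.add haB) ?_
        refine (ae_restrict_iff' (meas_Q Q)).2 (Eventually.of_forall fun x hx => ?_)
        by_cases hxB : x ∈ B
        · rw [indicator_of_mem hxB, indicator_of_notMem]
          · simp
          · intro hxG
            have h1' : |f x - Q.mean f| ≤ Λ * β := hxG.1
            have h2' : Λ * β < |f x - Q.mean f| := hxB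
            linarith
        · rw [indicator_of_notMem hxB, indicator_of_mem]
          · simp
          · have h1' : ¬ (Λ * β < |f x - Q.mean f|) := hxB
            exact ⟨show |f x - Q.mean f| ≤ Λ * β from not_lt.1 h1', hx⟩
      -- numerical contradiction
      have h4 : X Q (indicator G fun _ => 1) ≤ ENNReal.ofReal (c / (4 * κ)) := by
        have h5 : ENNReal.ofReal ((m : ℝ) - 4 * 5 ^ n) * X Q (indicator G fun _ => 1)
            ≤ ENNReal.ofReal ((m : ℝ) - 4 * 5 ^ n) * ENNReal.ofReal (c / (4 * κ)) := by
          refine h1.trans ?_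
          rw [← ENNReal.ofReal_mul (by linarith)]
          have e : (C : ℝ≥0∞) * (8 * 30 ^ n) = ENNReal.ofReal (C * (8 * 30 ^ n)) := by
            rw [ENNReal.ofReal_mul (by positivity), ENNReal.ofReal_coe_nnreal,
              ENNReal.ofReal_mul (by norm_num), ENNReal.ofReal_pow (by norm_num)]
            norm_num
          rw [e]
          refine ENNReal.ofReal_le_ofReal ?_
          have h6 : 4 * κ * (C * (8 * 30 ^ n)) / c < (m : ℝ) - 4 * 5 ^ n := by linarith
          rw [div_lt_iff₀ hcr] at h6
          rw [mul_div_assoc', le_div_iff₀ (by positivity)]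
          linarith
        have hne : ENNReal.ofReal ((m : ℝ) - 4 * 5 ^ n) ≠ 0 := (ENNReal.ofReal_pos.2 (by linarith)).ne'
        exact (ENNReal.mul_le_mul_iff_right hne ENNReal.ofReal_ne_top).1 h5
      have h6 : X Q (indicator B fun _ => 1) ≤ ENNReal.ofReal (c / (4 * κ)) := by
        have h7 : ENNReal.ofReal (Λ * β) * X Q (indicator B fun _ => 1)
            ≤ ENNReal.ofReal (Λ * β) * ENNReal.ofReal (c / (4 * κ)) := by
          refine h2.trans (le_of_eq ?_)
          rw [← ENNReal.ofReal_mul (by positivity)]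
          congr 1
          rw [hΛ]
          field_simp
        have hne : ENNReal.ofReal (Λ * β) ≠ 0 := (ENNReal.ofReal_pos.2 (by positivity)).ne'
        exact (ENNReal.mul_le_mul_iff_right hne ENNReal.ofReal_ne_top).1 h7
      have h8 : (c : ℝ≥0∞) ≤ ENNReal.ofReal (c / 2) := by
        calc (c : ℝ≥0∞) ≤ X Q (fun _ => 1) := (hcC Q).1
          _ ≤ K * (ENNReal.ofReal (c / (4 * κ)) + ENNReal.ofReal (c / (4 * κ))) :=
              h3.trans (by gcongr)
          _ = ENNReal.ofReal (K * (c / (4 * κ) + c / (4 * κ))) := by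
              rw [ENNReal.ofReal_mul (by positivity), ENNReal.ofReal_coe_nnreal,
                ENNReal.ofReal_add (by positivity) (by positivity)]
          _ ≤ ENNReal.ofReal (c / 2) := by
              refine ENNReal.ofReal_le_ofReal ?_
              have e : (K : ℝ) * (c / (4 * κ) + c / (4 * κ)) = (K : ℝ) / κ * (c / 2) := by
                field_simp; ring
              rw [e]
              refine mul_le_of_le_one_left (by positivity) ?_
              rw [div_le_one hκ0, hκ]
              linarith
      rw [← ENNReal.ofReal_coe_nnreal, ENNReal.ofReal_le_ofReal_iff (by positivity)] at h8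
      linarith
    refine iSup_le fun Q => ?_
    refine (osc_of_level hfl hfm hlev Q).trans (le_of_eq ?_)
    rw [← ENNReal.ofReal_mul (by positivity)]
    have e2 : ((5 : ℝ≥0∞) ^ n * 2 ^ m) = ENNReal.ofReal (5 ^ n * 2 ^ m) := by
      rw [ENNReal.ofReal_mul (by positivity), ENNReal.ofReal_pow (by norm_num),
        ENNReal.ofReal_pow (by norm_num)]
      norm_num
    rw [e2, ← ENNReal.ofReal_mul (by positivity)]
    congr 1; ring
  -- arbitrary functions
  have key2 : ∀ f : (Fin n → ℝ) → ℝ, LocallyIntegrable f → bmoX X f < ∞ →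
      bmoX L1 f ≤ ENNReal.ofReal (5 ^ n * 2 ^ m * (2 * Λ)) * bmoX X f := by
    intro f hfl hfin
    set f' := hfl.aestronglyMeasurable.mk f with hf'
    have hff' : f =ᵐ[volume] f' := hfl.aestronglyMeasurable.ae_eq_mk
    have hfm' : Measurable f' := hfl.aestronglyMeasurable.stronglyMeasurable_mk.measurable
    have hfl' : LocallyIntegrable f' := hfl.congr hff'
    have hmean : ∀ Q : Cube n, Q.mean f = Q.mean f' := by
      intro Q
      rw [Cube.mean, Cube.mean, setAverage_eq, setAverage_eq,
        integral_congr_ae (ae_restrict_of_ae hff')]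
    have hX' : bmoX X f' ≤ bmoX X f := by
      refine iSup_mono fun Q => ?_
      refine (hX Q).mono _ _ (hfm'.sub_const _).aemeasurable
        (hfl.aestronglyMeasurable.aemeasurable.restrict.sub_const _) ?_
      filter_upwards [ae_restrict_of_ae hff'] with x hx
      rw [hx, hmean Q]
    have hL' : bmoX L1 f ≤ bmoX L1 f' := by
      refine iSup_mono fun Q => ?_
      unfold L1
      refine mul_le_mul' le_rfl (lintegral_mono_ae ?_)
      filter_upwards [ae_restrict_of_ae hff'] with x hx
      rw [hx, hmean Q]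
    refine hL'.trans ?_
    -- approximate by positive bounds
    have h1 : ∀ ε : ℝ, 0 < ε → bmoX L1 f' ≤ ENNReal.ofReal (5 ^ n * 2 ^ m * (2 * Λ)) *
        (bmoX X f + ENNReal.ofReal ε) := by
      intro ε hε
      have e : ENNReal.ofReal ((bmoX X f).toReal + ε) = bmoX X f + ENNReal.ofReal ε := by
        rw [ENNReal.ofReal_add ENNReal.toReal_nonneg hε.le, ENNReal.ofReal_toReal hfin.ne]
      have := key f' hfm' hfl' ((bmoX X f).toReal + ε) (by positivity) (by
        rw [e]; exact hX'.trans le_self_add)
      rwa [e] at this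
    have h2 : Tendsto (fun ε : ℝ => ENNReal.ofReal (5 ^ n * 2 ^ m * (2 * Λ)) *
        (bmoX X f + ENNReal.ofReal ε)) (𝓝[>] 0) (𝓝 (ENNReal.ofReal (5 ^ n * 2 ^ m * (2 * Λ)) *
        (bmoX X f + ENNReal.ofReal 0))) := by
      refine ENNReal.Tendsto.const_mul ?_ (Or.inr ENNReal.ofReal_ne_top)
      refine tendsto_const_nhds.add ?_
      exact (ENNReal.continuous_ofReal.tendsto 0).mono_left nhdsWithin_le_nhds
    rw [ENNReal.ofReal_zero, add_zero] at h2
    refine ge_of_tendsto h2 ?_
    filter_upwards [self_mem_nhdsWithin] with ε hε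
    exact h1 ε hε
  refine ⟨?_, (5 ^ n * 2 ^ m * (2 * Λ)).toNNReal, ?_⟩
  · rintro f ⟨hfl, hfin⟩
    refine ⟨hfl, lt_of_le_of_lt (key2 f hfl hfin) ?_⟩
    exact ENNReal.mul_lt_top ENNReal.ofReal_lt_top hfin
  · rintro f ⟨hfl, hfin⟩
    exact key2 f hfl hfin

end Pool.Agent.N246.BX
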