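import Pool.Agent.N246.BX.Main

/-! A family with unbounded constants in the quasi-triangle inequalities. -/

set_option autoImplicit false
open MeasureTheory Set Filter Topology Metric
open scoped ENNReal NNReal

namespace Pool.Agent.N246.BX

open Pool.Agent.R884.BMOStar

variable {n : ℕ}

theorem leb_univ (Q : Cube n) : Q.leb univ = volume Q.set := by
  rw [Cube.leb, Measure.restrict_apply_univ]

instance (Q : Cube n) : IsFiniteMeasure Q.leb := ⟨by rw [leb_univ]; exact vol_Q_lt Q⟩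

theorem L1_eq (Q : Cube n) (f : (Fin n → ℝ) → ℝ) :
    L1 Q f = eLpNorm f 1 ((volume Q.set)⁻¹ • Q.leb) := by
  rw [eLpNorm_one_eq_lintegral_enorm, lintegral_smul_measure]
  rfl

theorem L1_qb (Q : Cube n) : IsQuasiBanachFunctionNorm Q (L1 Q) := by
  have h0 : (volume Q.set)⁻¹ ≠ 0 := ENNReal.inv_ne_zero.2 (vol_Q_lt Q).ne
  have ht : (volume Q.set)⁻¹ ≠ ∞ := ENNReal.inv_ne_top.2 (vol_Q_pos Q).ne'
  have : IsFiniteMeasure ((volume Q.set)⁻¹ • Q.leb) := by
    refine ⟨?_⟩
    rw [Measure.smul_apply, smul_eq_mul]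
    exact ENNReal.mul_lt_top ht.lt_top (measure_lt_top _ _)
  have h := isQBFN_of (Q := Q) (ν := (volume Q.set)⁻¹ • Q.leb)
    (Measure.smul_absolutelyContinuous) (Measure.AbsolutelyContinuous.rfl.smul_right h0)
  have e : L1 Q = fun g => eLpNorm g 1 ((volume Q.set)⁻¹ • Q.leb) := funext (L1_eq Q)
  rw [e]
  exact h

/-- the small factor -/
noncomputable def al (Q : Cube n) : ℝ := 1 / (Q.side + 2)

theorem al_pos (Q : Cube n) : 0 < al Q := by
  have := Q.side_pos
  unfold al; positivity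

theorem al_le (Q : Cube n) : al Q ≤ 1 / 2 := by
  have := Q.side_pos
  unfold al
  exact one_div_le_one_div_of_le (by norm_num) (by linarith)

/-- the quantile functional -/
noncomputable def Fq (Q : Cube n) (f : (Fin n → ℝ) → ℝ) : ℝ≥0∞ :=
  ⨆ (t : ℝ≥0) (_ : ENNReal.ofReal (1 - al Q) * volume Q.set < Q.leb {x | (t : ℝ≥0∞) < ‖f x‖ₑ}),
    (t : ℝ≥0∞)

/-- the quasi-norm -/
noncomputable def Nq : Family n := fun Q f => ENNReal.ofReal (al Q) * L1 Q f + Fq Q f

theorem le_Fq {Q : Cube n} {f : (Fin n → ℝ) → ℝ} {t : ℝ≥0}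
    (h : ENNReal.ofReal (1 - al Q) * volume Q.set < Q.leb {x | (t : ℝ≥0∞) < ‖f x‖ₑ}) :
    (t : ℝ≥0∞) ≤ Fq Q f :=
  le_iSup₂ (f := fun (t : ℝ≥0) (_ : ENNReal.ofReal (1 - al Q) * volume Q.set
    < Q.leb {x | (t : ℝ≥0∞) < ‖f x‖ₑ}) => (t : ℝ≥0∞)) t h

theorem Fq_mono {Q : Cube n} {f g : (Fin n → ℝ) → ℝ} (h : ∀ᵐ x ∂Q.leb, |f x| ≤ |g x|) :
    Fq Q f ≤ Fq Q g := by
  refine iSup₂_le fun t ht => le_Fq (ht.trans_le (measure_mono_ae ?_))
  filter_upwards [h] with x hx hxt
  have h1 : (t : ℝ≥0∞) < ‖f x‖ₑ := hxt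
  have h2 : ‖f x‖ₑ ≤ ‖g x‖ₑ := by
    rw [← ofReal_norm, ← ofReal_norm]
    exact ENNReal.ofReal_le_ofReal hx
  exact h1.trans_le h2

theorem Fq_smul_le {Q : Cube n} {f : (Fin n → ℝ) → ℝ} {c : ℝ} (hc : c ≠ 0) :
    Fq Q (fun x => c * f x) ≤ ENNReal.ofReal |c| * Fq Q f := by
  refine iSup₂_le fun t ht => ?_
  have hc' : ‖c‖₊ ≠ 0 := nnnorm_ne_zero_iff.2 hc
  have e : ENNReal.ofReal |c| = (‖c‖₊ : ℝ≥0∞) := by
    rw [← Real.norm_eq_abs, ofReal_norm]; rfl
  have h1 : ((t / ‖c‖₊ : ℝ≥0) : ℝ≥0∞) ≤ Fq Q f := by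
    refine le_Fq (ht.trans_le (measure_mono fun x hx => ?_))
    have h2 : (t : ℝ≥0∞) < ‖c * f x‖ₑ := hx
    show ((t / ‖c‖₊ : ℝ≥0) : ℝ≥0∞) < ‖f x‖ₑ
    rw [enorm_mul] at h2
    have h3 : t < ‖c‖₊ * ‖f x‖₊ := by
      have h2' : (t : ℝ≥0∞) < ((‖c‖₊ * ‖f x‖₊ : ℝ≥0) : ℝ≥0∞) := by
        rw [ENNReal.coe_mul]; exact h2
      exact ENNReal.coe_lt_coe.1 h2'
    have h4 : t / ‖c‖₊ < ‖f x‖₊ := by
      rw [div_lt_iff₀ (pos_iff_ne_zero.2 hc'), mul_comm]; exact h3
    exact ENNReal.coe_lt_coe.2 h4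
  calc (t : ℝ≥0∞) = (‖c‖₊ : ℝ≥0∞) * ((t / ‖c‖₊ : ℝ≥0) : ℝ≥0∞) := by
        rw [← ENNReal.coe_mul, mul_div_cancel₀ _ hc']
    _ ≤ _ := by rw [e]; gcongr

theorem Fq_smul {Q : Cube n} {f : (Fin n → ℝ) → ℝ} (c : ℝ) :
    Fq Q (fun x => c * f x) = ENNReal.ofReal |c| * Fq Q f := by
  by_cases hc : c = 0
  · rw [hc, abs_zero, ENNReal.ofReal_zero, zero_mul]
    refine le_antisymm (iSup₂_le fun t ht => ?_) zero_le
    exfalso
    have : {x : Fin n → ℝ | (t : ℝ≥0∞) < ‖(0:ℝ) * f x‖ₑ} = ∅ := by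
      ext x
      simp
    rw [this, measure_empty] at ht
    exact not_lt_zero ht
  · refine le_antisymm (Fq_smul_le hc) ?_
    have h1 := Fq_smul_le (Q := Q) (f := fun x => c * f x) (inv_ne_zero hc)
    have e : (fun x => c⁻¹ * (c * f x)) = f := by
      ext x; rw [← mul_assoc, inv_mul_cancel₀ hc, one_mul]
    rw [e] at h1
    calc ENNReal.ofReal |c| * Fq Q f
        ≤ ENNReal.ofReal |c| * (ENNReal.ofReal |c⁻¹| * Fq Q (fun x => c * f x)) := by gcongr
      _ = Fq Q (fun x => c * f x) := by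
          rw [← mul_assoc, ← ENNReal.ofReal_mul (abs_nonneg _), ← abs_mul, mul_inv_cancel₀ hc,
            abs_one, ENNReal.ofReal_one, one_mul]

theorem Fq_le {Q : Cube n} {f : (Fin n → ℝ) → ℝ} (hf : AEMeasurable f Q.leb) :
    Fq Q f ≤ 2 * L1 Q f := by
  have hQ0 : volume Q.set ≠ 0 := (vol_Q_pos Q).ne'
  have hQt : volume Q.set ≠ ∞ := (vol_Q_lt Q).ne
  refine iSup₂_le fun t ht => ?_
  have h1 : (t : ℝ≥0∞) * Q.leb {x | (t : ℝ≥0∞) ≤ ‖f x‖ₑ} ≤ ∫⁻ x, ‖f x‖ₑ ∂Q.leb :=
    mul_meas_ge_le_lintegral₀ hf.enorm _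
  have h2 : (t : ℝ≥0∞) * (2⁻¹ * volume Q.set) ≤ ∫⁻ x, ‖f x‖ₑ ∂Q.leb := by
    refine le_trans ?_ h1
    refine mul_le_mul' le_rfl ?_
    · calc 2⁻¹ * volume Q.set ≤ ENNReal.ofReal (1 - al Q) * volume Q.set := by
            gcongr
            rw [show (2 : ℝ≥0∞)⁻¹ = ENNReal.ofReal (1 / 2) by
              rw [one_div, ENNReal.ofReal_inv_of_pos (by norm_num)]; norm_num]
            exact ENNReal.ofReal_le_ofReal (by linarith [al_le Q])
        _ ≤ Q.leb {x | (t : ℝ≥0∞) < ‖f x‖ₑ} := ht.le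
        _ ≤ _ := measure_mono fun x hx => le_of_lt (show (t : ℝ≥0∞) < ‖f x‖ₑ from hx)
  calc (t : ℝ≥0∞) = 2 * ((volume Q.set)⁻¹ * (t * (2⁻¹ * volume Q.set))) := by
        rw [show 2 * ((volume Q.set)⁻¹ * ((t : ℝ≥0∞) * (2⁻¹ * volume Q.set)))
          = t * (2 * 2⁻¹) * ((volume Q.set)⁻¹ * volume Q.set) by ring,
          ENNReal.inv_mul_cancel hQ0 hQt, ENNReal.mul_inv_cancel (by norm_num) (by norm_num),
          mul_one, mul_one]
    _ ≤ 2 * ((volume Q.set)⁻¹ * ∫⁻ x, ‖f x‖ₑ ∂Q.leb) := by gcongr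
    _ = 2 * L1 Q f := rfl

theorem Nq_le {Q : Cube n} {f : (Fin n → ℝ) → ℝ} (hf : AEMeasurable f Q.leb) :
    Nq Q f ≤ 3 * L1 Q f := by
  unfold Nq
  calc ENNReal.ofReal (al Q) * L1 Q f + Fq Q f ≤ 1 * L1 Q f + 2 * L1 Q f := by
        gcongr
        · exact ENNReal.ofReal_le_one.2 ((al_le Q).trans (by norm_num))
        · exact Fq_le hf
    _ = 3 * L1 Q f := by ring

theorem L1_le {Q : Cube n} {f : (Fin n → ℝ) → ℝ} :
    L1 Q f ≤ ENNReal.ofReal (Q.side + 2) * Nq Q f := by
  have hs := Q.side_pos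
  calc L1 Q f = ENNReal.ofReal (Q.side + 2) * (ENNReal.ofReal (al Q) * L1 Q f) := by
        rw [← mul_assoc, ← ENNReal.ofReal_mul (by positivity), al, mul_one_div_cancel (by positivity),
          ENNReal.ofReal_one, one_mul]
    _ ≤ _ := by
        unfold Nq
        gcongr
        exact le_self_add

theorem Nq_qb (Q : Cube n) : IsQuasiBanachFunctionNorm Q (Nq Q) where
  mono f g hf hg h := by
    unfold Nq
    gcongr
    · exact (L1_qb Q).mono f g hf hg h
    · exact Fq_mono h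
  eq_zero f hf := by
    constructor
    · intro h
      have h1 : L1 Q f ≤ ENNReal.ofReal (Q.side + 2) * Nq Q f := L1_le
      rw [h, mul_zero] at h1
      exact ((L1_qb Q).eq_zero f hf).1 (le_antisymm h1 zero_le)
    · intro h
      have h1 := Nq_le hf
      rw [((L1_qb Q).eq_zero f hf).2 h, mul_zero] at h1
      exact le_antisymm h1 zero_le
  smul c f hf := by
    unfold Nq
    rw [(L1_qb Q).smul c f hf, Fq_smul]
    ring
  add := by
    refine ⟨3 * (Q.side + 2).toNNReal, fun f g hf hg => ?_⟩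
    have hL : L1 Q (fun x => f x + g x) ≤ L1 Q f + L1 Q g := by
      rw [L1_eq, L1_eq, L1_eq]
      have hac : ((volume Q.set)⁻¹ • Q.leb) ≪ Q.leb := Measure.smul_absolutelyContinuous
      exact eLpNorm_add_le (hf.mono_ac hac).aestronglyMeasurable
        (hg.mono_ac hac).aestronglyMeasurable le_rfl
    calc Nq Q (fun x => f x + g x) ≤ 3 * L1 Q (fun x => f x + g x) := Nq_le (hf.add hg)
      _ ≤ 3 * (L1 Q f + L1 Q g) := by gcongr
      _ ≤ 3 * (ENNReal.ofReal (Q.side + 2) * Nq Q f + ENNReal.ofReal (Q.side + 2) * Nq Q g) := by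
          gcongr <;> exact L1_le
      _ = _ := by
          rw [ENNReal.coe_mul]
          show 3 * (ENNReal.ofReal (Q.side + 2) * Nq Q f + ENNReal.ofReal (Q.side + 2) * Nq Q g)
            = (3 : ℝ≥0) * ENNReal.ofReal (Q.side + 2) * (Nq Q f + Nq Q g)
          push_cast
          ring
  complete u hu hc := by
    have h1 : ∀ ε : ℝ≥0∞, 0 < ε → ∃ M, ∀ i ≥ M, ∀ j ≥ M, L1 Q (fun x => u i x - u j x) ≤ ε := by
      intro ε hε
      have hs : 0 < Q.side + 2 := by have := Q.side_pos; positivity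
      obtain ⟨M, hM⟩ := hc (ε / ENNReal.ofReal (Q.side + 2))
        (ENNReal.div_pos hε.ne' ENNReal.ofReal_ne_top)
      refine ⟨M, fun i hi j hj => L1_le.trans ?_⟩
      calc ENNReal.ofReal (Q.side + 2) * Nq Q (fun x => u i x - u j x)
          ≤ ENNReal.ofReal (Q.side + 2) * (ε / ENNReal.ofReal (Q.side + 2)) := by
            gcongr; exact hM i hi j hj
        _ ≤ ε := ENNReal.mul_div_le
    obtain ⟨f, hf1, hf2, hf3⟩ := (L1_qb Q).complete u (fun k => ⟨(hu k).1,
      lt_of_le_of_lt L1_le (ENNReal.mul_lt_top ENNReal.ofReal_lt_top (hu k).2)⟩) h1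
    refine ⟨f, hf1, lt_of_le_of_lt (Nq_le hf1) (ENNReal.mul_lt_top (by norm_num) hf2), ?_⟩
    have h2 := ENNReal.Tendsto.const_mul (a := 3) hf3 (Or.inr (by norm_num))
    rw [mul_zero] at h2
    exact tendsto_of_tendsto_of_tendsto_of_le_of_le tendsto_const_nhds h2 (fun k => zero_le)
      (fun k => Nq_le ((hu k).1.sub hf1))
  pos := by
    obtain ⟨f, h1, h2, h3⟩ := (L1_qb Q).pos
    exact ⟨f, h1, lt_of_le_of_lt (Nq_le h1) (ENNReal.mul_lt_top (by norm_num) h2), h3⟩
  fatou u hu hmon hsup := by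
    have hsL : (⨆ k, L1 Q (u k)) < ∞ := by
      refine lt_of_le_of_lt (iSup_le fun k => ?_)
        (ENNReal.mul_lt_top (ENNReal.ofReal_lt_top (r := Q.side + 2)) hsup)
      exact L1_le.trans (by gcongr; exact le_iSup (fun k => Nq Q (u k)) k)
    obtain ⟨f, hf1, hf2, hf3⟩ := (L1_qb Q).fatou u hu hmon hsL
    refine ⟨f, hf1, hf2, ?_⟩
    -- everything is monotone
    have hmono : ∀ᵐ x ∂Q.leb, ∀ k, |u k x| ≤ |u (k + 1) x| := by
      filter_upwards [hmon] with x hx k
      rw [abs_of_nonneg (hx k).1, abs_of_nonneg (hx (k + 1)).1]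
      exact (hx k).2
    have hle : ∀ k, ∀ᵐ x ∂Q.leb, |u k x| ≤ |f x| := by
      intro k
      filter_upwards [hmon, hf2] with x hx hx2
      have h1 : Monotone fun k => u k x := monotone_nat_of_le_succ fun k => (hx k).2
      have h2 : u k x ≤ f x := h1.ge_of_tendsto hx2 k
      rw [abs_of_nonneg (hx k).1, abs_of_nonneg ((hx k).1.trans h2)]
      exact h2
    have hF : Fq Q f = ⨆ k, Fq Q (u k) := by
      refine le_antisymm (iSup₂_le fun t ht => ?_) (iSup_le fun k => Fq_mono (hle k))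
      -- the measure of the level sets
      set V : ℕ → Set (Fin n → ℝ) := fun k => {x | (t : ℝ≥0∞) < ‖u k x‖ₑ} with hV
      set V' : ℕ → Set (Fin n → ℝ) := fun k => {x | ∃ j ≤ k, x ∈ V j} with hV'
      have hVmono : Monotone V' := fun a b hab x ⟨j, hj, hx⟩ => ⟨j, hj.trans hab, hx⟩
      have h1 : {x | (t : ℝ≥0∞) < ‖f x‖ₑ} ≤ᵐ[Q.leb] ⋃ k, V' k := by
        filter_upwards [hf2] with x hx2 hxt
        have h2 : Tendsto (fun k => ‖u k x‖ₑ) atTop (𝓝 ‖f x‖ₑ) :=
          (continuous_enorm.tendsto _).comp hx2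
        obtain ⟨k, hk⟩ := (h2.eventually (lt_mem_nhds (show (t : ℝ≥0∞) < ‖f x‖ₑ from hxt))).exists
        exact mem_iUnion.2 ⟨k, k, le_rfl, hk⟩
      have h3 : Q.leb (⋃ k, V' k) = ⨆ k, Q.leb (V' k) := hVmono.measure_iUnion
      have h4 : ENNReal.ofReal (1 - al Q) * volume Q.set < ⨆ k, Q.leb (V' k) := by
        rw [← h3]; exact ht.trans_le (measure_mono_ae h1)
      obtain ⟨k, hk⟩ := lt_iSup_iff.1 h4
      have h5 : V' k ≤ᵐ[Q.leb] V k := by
        filter_upwards [hmon] with x hx hxV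
        obtain ⟨j, hj, hxj⟩ := hxV
        have h1 : Monotone fun k => u k x := monotone_nat_of_le_succ fun k => (hx k).2
        have h6 : ‖u j x‖ₑ ≤ ‖u k x‖ₑ := by
          rw [Real.enorm_eq_ofReal (hx j).1, Real.enorm_eq_ofReal (hx k).1]
          exact ENNReal.ofReal_le_ofReal (h1 hj)
        exact lt_of_lt_of_le (show (t : ℝ≥0∞) < ‖u j x‖ₑ from hxj) h6
      exact (le_Fq (hk.trans_le (measure_mono_ae h5))).trans (le_iSup (fun k => Fq Q (u k)) k)
    unfold Nq
    rw [hf3, hF, ENNReal.mul_iSup, ENNReal.iSup_add_iSup_of_monotone]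
    · refine monotone_nat_of_le_succ fun k => ?_
      gcongr
      exact (L1_qb Q).mono _ _ (hu k) (hu (k + 1)) (by
        filter_upwards [hmono] with x hx
        exact hx k)
    · refine monotone_nat_of_le_succ fun k => Fq_mono ?_
      filter_upwards [hmono] with x hx
      exact hx k

theorem L1_one (Q : Cube n) : L1 Q (fun _ => 1) = 1 := by
  unfold L1
  simp only [enorm_one, lintegral_const, Measure.restrict_apply_univ, one_mul]
  exact ENNReal.inv_mul_cancel (vol_Q_pos Q).ne' (vol_Q_lt Q).ne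

theorem Nq_norm : IsNormalized (Nq (n := n)) := by
  refine ⟨1 / 2, 3, by norm_num, fun Q => ⟨?_, ?_⟩⟩
  · unfold Nq
    refine le_trans ?_ le_add_self
    have h1 : ENNReal.ofReal (1 - al Q) * volume Q.set
        < Q.leb {x : Fin n → ℝ | ((1 / 2 : ℝ≥0) : ℝ≥0∞) < ‖(1 : ℝ)‖ₑ} := by
      have e : {x : Fin n → ℝ | ((1 / 2 : ℝ≥0) : ℝ≥0∞) < ‖(1 : ℝ)‖ₑ} = univ := by
        refine eq_univ_of_forall fun x => ?_
        show ((1 / 2 : ℝ≥0) : ℝ≥0∞) < ‖(1 : ℝ)‖ₑ
        rw [enorm_one]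
        exact_mod_cast (by norm_num : (1 / 2 : ℝ≥0) < 1)
      rw [e, leb_univ]
      calc ENNReal.ofReal (1 - al Q) * volume Q.set < 1 * volume Q.set := by
            refine (ENNReal.mul_lt_mul_iff_left (vol_Q_pos Q).ne' (vol_Q_lt Q).ne).2 ?_
            rw [ENNReal.ofReal_lt_one]
            linarith [al_pos Q]
        _ = _ := one_mul _
    exact le_Fq h1
  · have := Nq_le (Q := Q) (f := fun _ => 1) aemeasurable_const
    rw [L1_one, mul_one] at this
    exact this

theorem Nq_embeds : Embeds (BMO n) (BMOX Nq) (bmoX L1) (bmoX Nq) := by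
  have h : ∀ f : (Fin n → ℝ) → ℝ, LocallyIntegrable f → bmoX Nq f ≤ 3 * bmoX L1 f := by
    intro f hf
    refine iSup_le fun Q => (Nq_le ?_).trans ?_
    · exact hf.aestronglyMeasurable.aemeasurable.restrict.sub_const _
    · gcongr
      exact le_iSup (fun Q : Cube n => L1 Q (fun x => f x - Q.mean f)) Q
  refine ⟨fun f hf => ⟨hf.1, lt_of_le_of_lt (h f hf.1) (ENNReal.mul_lt_top (by norm_num) hf.2)⟩,
    3, fun f hf => ?_⟩
  exact h f hf.1

/-- volume of a slab of a cube -/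
theorem slab (Q : Cube n) (i0 : Fin n) {s t : ℝ} (hs : Q.corner i0 ≤ s)
    (ht : t ≤ Q.corner i0 + Q.side) :
    volume ({x | s ≤ x i0 ∧ x i0 ≤ t} ∩ Q.set) * ENNReal.ofReal Q.side
      = ENNReal.ofReal (t - s) * volume Q.set := by
  classical
  have e : {x | s ≤ x i0 ∧ x i0 ≤ t} ∩ Q.set = Icc (fun i => if i = i0 then s else Q.corner i)
      (fun i => if i = i0 then t else Q.corner i + Q.side) := by
    ext x
    constructor
    · rintro ⟨⟨h1, h2⟩, h3, h4⟩
      refine ⟨fun i => ?_, fun i => ?_⟩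
      · by_cases hi : i = i0
        · simp only [hi, if_true]; exact h1
        · simp only [hi, if_false]; exact h3 i
      · by_cases hi : i = i0
        · simp only [hi, if_true]; exact h2
        · simp only [hi, if_false]; exact h4 i
    · rintro ⟨h1, h2⟩
      have h3 := h1 i0
      have h4 := h2 i0
      simp only [if_true] at h3 h4
      refine ⟨⟨h3, h4⟩, fun i => ?_, fun i => ?_⟩
      · by_cases hi : i = i0
        · rw [hi]; exact hs.trans h3
        · have := h1 i; simp only [hi, if_false] at this; exact this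
      · by_cases hi : i = i0
        · rw [hi]; exact h4.trans ht
        · have := h2 i; simp only [hi, if_false] at this; exact this
  have e2 : ∀ i, ENNReal.ofReal ((if i = i0 then t else Q.corner i + Q.side)
      - (if i = i0 then s else Q.corner i))
      = if i = i0 then ENNReal.ofReal (t - s) else ENNReal.ofReal Q.side := by
    intro i
    by_cases hi : i = i0
    · simp [hi]
    · simp [hi]
  rw [e, Real.volume_Icc_pi, Finset.prod_congr rfl fun i _ => e2 i,
    ← Finset.mul_prod_erase Finset.univ _ (Finset.mem_univ i0)]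
  have e3 : ∏ i ∈ Finset.univ.erase i0, (if i = i0 then ENNReal.ofReal (t - s)
      else ENNReal.ofReal Q.side) = ∏ i ∈ Finset.univ.erase i0, ENNReal.ofReal Q.side := by
    refine Finset.prod_congr rfl fun i hi => ?_
    rw [if_neg (Finset.ne_of_mem_erase hi)]
  have e4 : volume Q.set = ENNReal.ofReal Q.side *
      ∏ i ∈ Finset.univ.erase i0, ENNReal.ofReal Q.side := by
    rw [Finset.mul_prod_erase Finset.univ (fun _ => ENNReal.ofReal Q.side) (Finset.mem_univ i0),
      Cube.set, Real.volume_Icc_pi]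
    refine Finset.prod_congr rfl fun i _ => ?_
    congr 1; ring
  rw [if_pos rfl, e3, e4]
  ring

theorem mean_mem (Q : Cube n) (i0 : Fin n) :
    Q.mean (fun x => x i0) ∈ Icc (Q.corner i0) (Q.corner i0 + Q.side) := by
  have hQ0 : volume Q.set ≠ 0 := (vol_Q_pos Q).ne'
  have hQt : volume Q.set ≠ ∞ := (vol_Q_lt Q).ne
  have hi : IntegrableOn (fun x : Fin n → ℝ => x i0) Q.set :=
    (continuous_apply i0).continuousOn.integrableOn_compact isCompact_Icc
  have hr : 0 < volume.real Q.set := ENNReal.toReal_pos hQ0 hQt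
  have h1 : Q.corner i0 * volume.real Q.set ≤ ∫ x in Q.set, x i0 := by
    have := setIntegral_mono_on (integrableOn_const hQt) hi (meas_Q Q)
      (fun x hx => (show Q.corner i0 ≤ x i0 from hx.1 i0))
    rw [setIntegral_const, smul_eq_mul, mul_comm] at this
    exact this
  have h2 : ∫ x in Q.set, x i0 ≤ (Q.corner i0 + Q.side) * volume.real Q.set := by
    have := setIntegral_mono_on hi (integrableOn_const hQt) (meas_Q Q)
      (fun x hx => (show x i0 ≤ Q.corner i0 + Q.side from hx.2 i0))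
    rw [setIntegral_const, smul_eq_mul, mul_comm] at this
    exact this
  rw [Cube.mean, setAverage_eq, smul_eq_mul, inv_mul_eq_div]
  exact ⟨(le_div_iff₀ hr).2 h1, (div_le_iff₀ hr).2 h2⟩

theorem coord_mem (i0 : Fin n) : (fun x : Fin n → ℝ => x i0) ∈ BMOX (Nq (n := n)) := by
  refine ⟨(continuous_apply i0).locallyIntegrable, ?_⟩
  refine lt_of_le_of_lt (b := 2) (iSup_le fun Q => ?_) (by norm_num)
  have hs := Q.side_pos
  have hQ0 : volume Q.set ≠ 0 := (vol_Q_pos Q).ne'
  have hQt : volume Q.set ≠ ∞ := (vol_Q_lt Q).ne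
  obtain ⟨hc1, hc2⟩ := mean_mem Q i0
  set c := Q.mean (fun x => x i0) with hc
  have h1 : ENNReal.ofReal (al Q) * L1 Q (fun x => x i0 - c) ≤ 1 := by
    have h2 : L1 Q (fun x => x i0 - c) ≤ ENNReal.ofReal Q.side := by
      unfold L1
      calc (volume Q.set)⁻¹ * ∫⁻ x in Q.set, ‖x i0 - c‖ₑ
          ≤ (volume Q.set)⁻¹ * ∫⁻ x in Q.set, ENNReal.ofReal Q.side := by
            refine mul_le_mul' le_rfl ?_
            refine setLIntegral_mono' (meas_Q Q) fun x hx => ?_
            rw [← ofReal_norm, Real.norm_eq_abs]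
            refine ENNReal.ofReal_le_ofReal (abs_le.2 ⟨?_, ?_⟩)
            · have := hx.1 i0; linarith
            · have : x i0 ≤ Q.corner i0 + Q.side := hx.2 i0; linarith
        _ = ENNReal.ofReal Q.side * ((volume Q.set)⁻¹ * volume Q.set) := by
            rw [setLIntegral_const]; ring
        _ = _ := by rw [ENNReal.inv_mul_cancel hQ0 hQt, mul_one]
    calc ENNReal.ofReal (al Q) * L1 Q (fun x => x i0 - c)
        ≤ ENNReal.ofReal (al Q) * ENNReal.ofReal Q.side := by gcongr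
      _ = ENNReal.ofReal (al Q * Q.side) := (ENNReal.ofReal_mul (al_pos Q).le).symm
      _ ≤ 1 := by
          rw [ENNReal.ofReal_le_one, al, one_div_mul_eq_div, div_le_one (by positivity)]
          linarith
  have h3 : Fq Q (fun x => x i0 - c) ≤ 1 := by
    refine iSup₂_le fun t ht => ?_
    by_contra hcon
    push Not at hcon
    have ht1 : (1 : ℝ) < t := by exact_mod_cast hcon
    -- a slab on which the function is small
    obtain ⟨s1, s2, hs1, hs2, hs12, hsl⟩ : ∃ s1 s2 : ℝ, Q.corner i0 ≤ s1 ∧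
        s2 ≤ Q.corner i0 + Q.side ∧ al Q * Q.side ≤ s2 - s1 ∧
        ∀ y ∈ Icc s1 s2, |y - c| ≤ 1 := by
      have hal : al Q * Q.side ≤ 1 := by
        rw [al, one_div_mul_eq_div, div_le_one (by positivity)]; linarith
      have hal2 : al Q * Q.side ≤ Q.side / 2 := by
        have := mul_le_mul_of_nonneg_right (al_le Q) hs.le
        linarith
      by_cases hcm : c ≤ Q.corner i0 + Q.side / 2
      · refine ⟨c, c + al Q * Q.side, hc1, by linarith, by linarith, fun y hy => ?_⟩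
        rw [abs_le]; exact ⟨by linarith [hy.1], by linarith [hy.2]⟩
      · push Not at hcm
        refine ⟨c - al Q * Q.side, c, by linarith, hc2, by linarith, fun y hy => ?_⟩
        rw [abs_le]; exact ⟨by linarith [hy.1], by linarith [hy.2]⟩
    set W : Set (Fin n → ℝ) := {x | s1 ≤ x i0 ∧ x i0 ≤ s2} with hW
    have hWm : MeasurableSet W :=
      (measurableSet_le measurable_const (measurable_pi_apply i0)).inter
        (measurableSet_le (measurable_pi_apply i0) measurable_const)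
    have h4 := slab Q i0 hs1 hs2
    have h5 : ENNReal.ofReal (al Q) * volume Q.set ≤ volume (W ∩ Q.set) := by
      have h6 : ENNReal.ofReal (al Q) * volume Q.set * ENNReal.ofReal Q.side
          ≤ volume (W ∩ Q.set) * ENNReal.ofReal Q.side := by
        rw [h4]
        calc ENNReal.ofReal (al Q) * volume Q.set * ENNReal.ofReal Q.side
            = ENNReal.ofReal (al Q * Q.side) * volume Q.set := by
              rw [ENNReal.ofReal_mul (al_pos Q).le]; ring
          _ ≤ _ := by gcongr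
      exact (ENNReal.mul_le_mul_iff_left (ENNReal.ofReal_pos.2 hs).ne'
        ENNReal.ofReal_ne_top).1 h6
    have h7 : Q.leb {x | (t : ℝ≥0∞) < ‖x i0 - c‖ₑ} + volume (W ∩ Q.set) ≤ volume Q.set := by
      have hm : MeasurableSet {x : Fin n → ℝ | (t : ℝ≥0∞) < ‖x i0 - c‖ₑ} :=
        measurableSet_lt measurable_const (by fun_prop)
      rw [Cube.leb, Measure.restrict_apply hm, ← measure_union _ (hWm.inter (meas_Q Q))]
      · exact measure_mono (union_subset inter_subset_right inter_subset_right)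
      · rw [Set.disjoint_left]
        rintro x ⟨hx1, _⟩ ⟨hx2, _⟩
        have h8 : (t : ℝ≥0∞) < ‖x i0 - c‖ₑ := hx1
        have h9 := hsl (x i0) hx2
        have h10 : ‖x i0 - c‖ₑ ≤ 1 := by
          rw [← ofReal_norm, Real.norm_eq_abs, ENNReal.ofReal_le_one]; exact h9
        exact absurd (h8.trans_le h10) (not_lt.2 hcon.le)
    have h11 : ENNReal.ofReal (1 - al Q) * volume Q.set + ENNReal.ofReal (al Q) * volume Q.set
        = volume Q.set := by
      rw [← add_mul, ← ENNReal.ofReal_add (by linarith [al_le Q]) (al_pos Q).le, sub_add_cancel,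
        ENNReal.ofReal_one, one_mul]
    have h12 : ENNReal.ofReal (al Q) * volume Q.set ≠ ∞ := ENNReal.mul_ne_top ENNReal.ofReal_ne_top hQt
    have h13 : volume Q.set < volume Q.set := by
      calc volume Q.set = ENNReal.ofReal (1 - al Q) * volume Q.set
            + ENNReal.ofReal (al Q) * volume Q.set := h11.symm
        _ < Q.leb {x | (t : ℝ≥0∞) < ‖x i0 - c‖ₑ} + ENNReal.ofReal (al Q) * volume Q.set :=
            ENNReal.add_lt_add_right h12 ht
        _ ≤ Q.leb {x | (t : ℝ≥0∞) < ‖x i0 - c‖ₑ} + volume (W ∩ Q.set) := by gcongr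
        _ ≤ volume Q.set := h7
    exact lt_irrefl _ h13
  show Nq Q (fun x => x i0 - c) ≤ 2
  unfold Nq
  calc ENNReal.ofReal (al Q) * L1 Q (fun x => x i0 - c) + Fq Q (fun x => x i0 - c) ≤ 1 + 1 :=
        add_le_add h1 h3
    _ = 2 := one_add_one_eq_two

theorem coord_not_mem (i0 : Fin n) : (fun x : Fin n → ℝ => x i0) ∉ BMO n := by
  rintro ⟨_, hfin⟩
  have key : ∀ s : ℝ, 0 < s → ENNReal.ofReal (s / 16) ≤ bmoX L1 (fun x : Fin n → ℝ => x i0) := by
    intro s hs
    set Q : Cube n := ⟨fun _ => 0, s, hs⟩ with hQ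
    have hQ0 : volume Q.set ≠ 0 := (vol_Q_pos Q).ne'
    have hQt : volume Q.set ≠ ∞ := (vol_Q_lt Q).ne
    set c := Q.mean (fun x => x i0) with hc
    refine le_trans ?_ (le_iSup (fun Q : Cube n => L1 Q (fun x => x i0 - Q.mean (fun x => x i0))) Q)
    show ENNReal.ofReal (s / 16) ≤ L1 Q (fun x => x i0 - c)
    have main : ∀ s1 s2 : ℝ, 0 ≤ s1 → s2 ≤ s → s2 - s1 = s / 4 → (∀ y ∈ Icc s1 s2, s / 4 ≤ |y - c|) →
        ENNReal.ofReal (s / 16) ≤ L1 Q (fun x => x i0 - c) := by
      intro s1 s2 h1 h2 h3 h4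
      have h5 := slab Q i0 (s := s1) (t := s2) h1 (by show s2 ≤ 0 + s; linarith)
      set W : Set (Fin n → ℝ) := {x | s1 ≤ x i0 ∧ x i0 ≤ s2} with hW
      have hWm : MeasurableSet W :=
        (measurableSet_le measurable_const (measurable_pi_apply i0)).inter
          (measurableSet_le (measurable_pi_apply i0) measurable_const)
      have h6 : volume (W ∩ Q.set) = ENNReal.ofReal (1 / 4) * volume Q.set := by
        have h7 : volume (W ∩ Q.set) * ENNReal.ofReal s
            = (ENNReal.ofReal (1 / 4) * volume Q.set) * ENNReal.ofReal s := by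
          have h8 : ENNReal.ofReal (s2 - s1) = ENNReal.ofReal (1 / 4) * ENNReal.ofReal s := by
            rw [← ENNReal.ofReal_mul (by norm_num), h3]; congr 1; ring
          calc volume (W ∩ Q.set) * ENNReal.ofReal s = ENNReal.ofReal (s2 - s1) * volume Q.set := h5
            _ = _ := by rw [h8]; ring
        exact (ENNReal.mul_left_inj (ENNReal.ofReal_pos.2 hs).ne' ENNReal.ofReal_ne_top).1 h7
      unfold L1
      calc ENNReal.ofReal (s / 16) = (volume Q.set)⁻¹ * (ENNReal.ofReal (s / 4) *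
            (ENNReal.ofReal (1 / 4) * volume Q.set)) := by
            rw [show (volume Q.set)⁻¹ * (ENNReal.ofReal (s / 4) *
              (ENNReal.ofReal (1 / 4) * volume Q.set)) = ENNReal.ofReal (s / 4) *
              ENNReal.ofReal (1 / 4) * ((volume Q.set)⁻¹ * volume Q.set) by ring,
              ENNReal.inv_mul_cancel hQ0 hQt, mul_one, ← ENNReal.ofReal_mul (by positivity)]
            congr 1; ring
        _ = (volume Q.set)⁻¹ * ∫⁻ x in W ∩ Q.set, ENNReal.ofReal (s / 4) := by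
            rw [setLIntegral_const, h6]
        _ ≤ (volume Q.set)⁻¹ * ∫⁻ x in W ∩ Q.set, ‖x i0 - c‖ₑ := by
            refine mul_le_mul' le_rfl ?_
            refine setLIntegral_mono' (hWm.inter (meas_Q Q)) fun x hx => ?_
            rw [← ofReal_norm, Real.norm_eq_abs]
            exact ENNReal.ofReal_le_ofReal (h4 _ hx.1)
        _ ≤ _ := by
            refine mul_le_mul' le_rfl ?_
            exact lintegral_mono_set inter_subset_right
    by_cases hcm : s / 2 ≤ c
    · refine main 0 (s / 4) le_rfl (by linarith) (by ring) fun y hy => ?_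
      rw [abs_sub_comm, abs_of_nonneg (by linarith [hy.2])]
      linarith [hy.2]
    · push Not at hcm
      refine main (3 * s / 4) s (by linarith) le_rfl (by ring) fun y hy => ?_
      rw [abs_of_nonneg (by linarith [hy.1])]
      linarith [hy.1]
  set b := bmoX L1 (fun x : Fin n → ℝ => x i0) with hb
  have h1 := key (16 * (b.toReal + 1)) (by positivity)
  rw [show 16 * (b.toReal + 1) / 16 = b.toReal + 1 by ring,
    ENNReal.ofReal_add ENNReal.toReal_nonneg zero_le_one, ENNReal.ofReal_toReal hfin.ne,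
    ENNReal.ofReal_one] at h1
  have h2 : b < b + 1 := ENNReal.lt_add_right hfin.ne one_ne_zero
  exact absurd h1 (not_le.2 h2)

theorem negative (hn : 1 ≤ n) : ∃ X : Family n, (∀ Q, IsQuasiBanachFunctionNorm Q (X Q)) ∧
    IsNormalized X ∧ Embeds (BMO n) (BMOX X) (bmoX L1) (bmoX X) ∧ ¬ BMOX X ⊆ BMO n := by
  refine ⟨Nq, Nq_qb, Nq_norm, Nq_embeds, fun h => ?_⟩
  exact coord_not_mem ⟨0, by omega⟩ (h (coord_mem ⟨0, by omega⟩))

end Pool.Agent.N246.BX
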