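import Pool.Agent.N246.BX.Small

/-! From level sets to mean oscillation. -/

set_option autoImplicit false
open MeasureTheory Set Filter Topology Metric
open scoped ENNReal NNReal

namespace Pool.Agent.N246.BX

open Pool.Agent.R884.BMOStar

variable {n : ℕ}

/-- the cubes between a point and a cube -/
noncomputable def St (Q : Cube n) (x : Fin n → ℝ) (t : ℝ) : Set (Fin n → ℝ) :=
  Icc (fun i => (1 - t) * x i + t * Q.corner i) (fun i => (1 - t) * x i + t * (Q.corner i + Q.side))

/-- the same as a cube -/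
noncomputable def Ct (Q : Cube n) (x : Fin n → ℝ) (t : ℝ) (ht : 0 < t) : Cube n :=
  ⟨fun i => (1 - t) * x i + t * Q.corner i, t * Q.side, mul_pos ht Q.side_pos⟩

theorem Ct_set (Q : Cube n) (x : Fin n → ℝ) {t : ℝ} (ht : 0 < t) :
    (Ct Q x t ht).set = St Q x t := by
  unfold Cube.set Ct St
  congr 1
  ext i
  simp only
  ring

theorem mem_St {Q : Cube n} {x : Fin n → ℝ} (hx : x ∈ Q.set) {t : ℝ} (ht : 0 ≤ t) :
    x ∈ St Q x t := by
  obtain ⟨h1, h2⟩ := hx
  refine ⟨fun i => ?_, fun i => ?_⟩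
  · have := mul_le_mul_of_nonneg_left (h1 i) ht
    show (1 - t) * x i + t * Q.corner i ≤ x i
    linarith
  · have := mul_le_mul_of_nonneg_left (h2 i) ht
    show x i ≤ (1 - t) * x i + t * (Q.corner i + Q.side)
    simp only at this
    linarith

theorem St_sub {Q : Cube n} {x : Fin n → ℝ} (hx : x ∈ Q.set) {t : ℝ} (ht : t ∈ Icc (0:ℝ) 1) :
    St Q x t ⊆ Q.set := by
  obtain ⟨h1, h2⟩ := hx
  rintro y ⟨h3, h4⟩
  refine ⟨fun i => ?_, fun i => ?_⟩
  · have e1 := mul_le_mul_of_nonneg_left (h1 i) (sub_nonneg.2 ht.2)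
    have e2 : (1 - t) * x i + t * Q.corner i ≤ y i := h3 i
    linarith
  · have e1 := mul_le_mul_of_nonneg_left (h2 i) (sub_nonneg.2 ht.2)
    have e2 : y i ≤ (1 - t) * x i + t * (Q.corner i + Q.side) := h4 i
    simp only at e1
    linarith

theorem cont_int {f : (Fin n → ℝ) → ℝ} (hf : LocallyIntegrable f) (Q : Cube n)
    {x : Fin n → ℝ} (hx : x ∈ Q.set) :
    ContinuousOn (fun t : ℝ => ∫ y in St Q x t, f y) (Icc 0 1) := by
  have hi := locInt_on hf Q
  intro t0 ht0
  have e : ∀ t : ℝ, ∫ y in St Q x t, f y = ∫ y, indicator (St Q x t) f y := fun t =>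
    (integral_indicator measurableSet_Icc).symm
  unfold ContinuousWithinAt
  simp_rw [e]
  refine tendsto_integral_filter_of_dominated_convergence (indicator Q.set (fun y => ‖f y‖))
    ?_ ?_ ?_ ?_
  · exact Eventually.of_forall fun t => hf.aestronglyMeasurable.indicator measurableSet_Icc
  · filter_upwards [self_mem_nhdsWithin] with t ht
    refine Eventually.of_forall fun y => ?_
    by_cases hy : y ∈ St Q x t
    · rw [indicator_of_mem hy, indicator_of_mem (St_sub hx ht hy)]
    · rw [indicator_of_notMem hy, norm_zero]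
      exact indicator_nonneg (fun _ _ => norm_nonneg _) _
  · exact (integrable_indicator_iff (meas_Q Q)).2 hi.norm
  · have hae : (pi univ fun i => Ioo ((1 - t0) * x i + t0 * Q.corner i)
        ((1 - t0) * x i + t0 * (Q.corner i + Q.side))) =ᵐ[volume] St Q x t0 := by
      have := Measure.univ_pi_Ioo_ae_eq_Icc (μ := fun _ : Fin n => (volume : Measure ℝ))
        (f := fun i => (1 - t0) * x i + t0 * Q.corner i)
        (g := fun i => (1 - t0) * x i + t0 * (Q.corner i + Q.side))
      exact this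
    filter_upwards [hae] with y hy
    have hy' : (y ∈ pi univ fun i => Ioo ((1 - t0) * x i + t0 * Q.corner i)
        ((1 - t0) * x i + t0 * (Q.corner i + Q.side))) ↔ y ∈ St Q x t0 := by
      exact iff_of_eq hy
    by_cases hyt : y ∈ St Q x t0
    · rw [indicator_of_mem hyt]
      refine tendsto_const_nhds.congr' ?_
      have h1 := hy'.2 hyt
      have h2 : ∀ i : Fin n, ∀ᶠ t in 𝓝 t0, (1 - t) * x i + t * Q.corner i < y i ∧
          y i < (1 - t) * x i + t * (Q.corner i + Q.side) := by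
        intro i
        have h3 := h1 i (mem_univ i)
        refine Filter.Eventually.and ?_ ?_
        · exact (by fun_prop : Continuous fun t : ℝ => (1 - t) * x i + t * Q.corner i).continuousAt.eventually_lt_const h3.1
        · exact (by fun_prop : Continuous fun t : ℝ =>
            (1 - t) * x i + t * (Q.corner i + Q.side)).continuousAt.eventually_const_lt h3.2
      have h3 := (eventually_all.2 h2).filter_mono (nhdsWithin_le_nhds (s := Icc (0:ℝ) 1))
      filter_upwards [h3] with t ht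
      rw [indicator_of_mem]
      exact ⟨fun i => (ht i).1.le, fun i => (ht i).2.le⟩
    · rw [indicator_of_notMem hyt]
      refine tendsto_const_nhds.congr' ?_
      have h2 : IsClosed {t : ℝ | y ∈ St Q x t} := by
        have : {t : ℝ | y ∈ St Q x t} = ⋂ i : Fin n, ({t : ℝ | (1 - t) * x i + t * Q.corner i ≤ y i} ∩
            {t : ℝ | y i ≤ (1 - t) * x i + t * (Q.corner i + Q.side)}) := by
          ext t
          simp only [mem_ofPred_eq, St, mem_Icc, Pi.le_def, mem_iInter, mem_inter_iff]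
          exact ⟨fun h i => ⟨h.1 i, h.2 i⟩, fun h => ⟨fun i => (h i).1, fun i => (h i).2⟩⟩
        rw [this]
        refine isClosed_iInter fun i => IsClosed.inter ?_ ?_
        · exact isClosed_le (by fun_prop) continuous_const
        · exact isClosed_le continuous_const (by fun_prop)
      have h3 : ∀ᶠ t in 𝓝 t0, t ∈ {t : ℝ | y ∈ St Q x t}ᶜ := h2.isOpen_compl.mem_nhds hyt
      filter_upwards [h3.filter_mono (nhdsWithin_le_nhds (s := Icc (0:ℝ) 1))] with t ht
      have ht' : y ∉ St Q x t := ht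
      rw [indicator_of_notMem ht']

theorem volume_St (Q : Cube n) (x : Fin n → ℝ) {t : ℝ} (ht : 0 ≤ t) :
    volume.real (St Q x t) = (t * Q.side) ^ n := by
  rw [measureReal_def, St, Real.volume_Icc_pi]
  have : ∀ i : Fin n, ENNReal.ofReal ((1 - t) * x i + t * (Q.corner i + Q.side)
      - ((1 - t) * x i + t * Q.corner i)) = ENNReal.ofReal (t * Q.side) := by
    intro i; congr 1; ring
  rw [Finset.prod_congr rfl fun i _ => this i]
  simp only [Finset.prod_const, Finset.card_univ, Fintype.card_fin, ENNReal.toReal_pow]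
  rw [ENNReal.toReal_ofReal (mul_nonneg ht Q.side_pos.le)]

/-- intermediate values of the averages -/
theorem ivt {f : (Fin n → ℝ) → ℝ} (hf : LocallyIntegrable f) (Q : Cube n) :
    ∀ᵐ x : Fin n → ℝ, x ∈ Q.set → ∀ v : ℝ, ((Q.mean f < v ∧ v < f x) ∨ (f x < v ∧ v < Q.mean f)) →
      ∃ Q' : Cube n, Q'.set ⊆ Q.set ∧ x ∈ Q'.set ∧ Q'.side ≤ Q.side ∧ Q'.mean f = v := by
  filter_upwards [IsUnifLocDoublingMeasure.ae_tendsto_average (μ := volume) hf 1] with x hx hxQ v hv
  have hs := Q.side_pos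
  set A : ℝ → ℝ := fun t => (volume.real (St Q x t))⁻¹ * ∫ y in St Q x t, f y with hA
  have hAm : ∀ t (ht : 0 < t), A t = (Ct Q x t ht).mean f := by
    intro t ht
    rw [Cube.mean, setAverage_eq, Ct_set]; rfl
  have hA1 : A 1 = Q.mean f := by
    rw [hAm 1 one_pos, Cube.mean, Cube.mean, Ct_set]
    congr 2
    unfold St Cube.set
    congr 1
    · ext i; ring
    · ext i; ring
  have hAc : ContinuousOn A (Ioc 0 1) := by
    refine ContinuousOn.mul ?_ ((cont_int hf Q hxQ).mono Ioc_subset_Icc_self)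
    refine ContinuousOn.congr (f := fun t : ℝ => ((t * Q.side) ^ n)⁻¹) ?_ ?_
    · refine ContinuousOn.inv₀ (by fun_prop) fun t ht => ?_
      have := ht.1
      positivity
    · intro t ht
      simp only
      rw [volume_St Q x ht.1.le]
  have hAl : Tendsto A (𝓝[>] 0) (𝓝 (f x)) := by
    have h1 := hx (l := 𝓝[>] (0:ℝ)) (fun t : ℝ => fun i => (1 - t) * x i + t * Q.corner i + t * Q.side / 2)
      (fun t : ℝ => t * Q.side / 2) ?_ ?_
    · refine h1.congr' ?_
      filter_upwards [self_mem_nhdsWithin] with t ht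
      have ht' : 0 < t := ht
      rw [hAm t ht', Cube.mean, set_eq]
      rfl
    · refine tendsto_nhdsWithin_iff.2 ⟨?_, ?_⟩
      · have : Tendsto (fun t : ℝ => t * Q.side / 2) (𝓝 0) (𝓝 (0 * Q.side / 2)) :=
          (by fun_prop : Continuous fun t : ℝ => t * Q.side / 2).tendsto 0
        rw [zero_mul, zero_div] at this
        exact this.mono_left nhdsWithin_le_nhds
      · filter_upwards [self_mem_nhdsWithin] with t ht
        have ht' : 0 < t := ht
        show 0 < t * Q.side / 2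
        positivity
    · filter_upwards [self_mem_nhdsWithin] with t ht
      have ht' : 0 < t := ht
      rw [one_mul]
      have := mem_St hxQ ht'.le
      rw [← Ct_set Q x ht', set_eq] at this
      exact this
  -- pick a small time
  have hex : ∃ t1 ∈ Ioc (0:ℝ) 1, (Q.mean f < v ∧ v < A t1) ∨ (A t1 < v ∧ v < Q.mean f) := by
    have hio : Ioc (0:ℝ) 1 ∈ 𝓝[>] (0:ℝ) := Ioc_mem_nhdsGT one_pos
    rcases hv with ⟨h1, h2⟩ | ⟨h1, h2⟩
    · obtain ⟨t, ht1, ht2⟩ := ((hAl.eventually (lt_mem_nhds h2)).and hio).exists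
      exact ⟨t, ht2, Or.inl ⟨h1, ht1⟩⟩
    · obtain ⟨t, ht1, ht2⟩ := ((hAl.eventually (gt_mem_nhds h1)).and hio).exists
      exact ⟨t, ht2, Or.inr ⟨ht1, h2⟩⟩
  obtain ⟨t1, ht1, ht1v⟩ := hex
  have hc1 : ContinuousOn A (Icc t1 1) := hAc.mono fun t ht => ⟨ht1.1.trans_le ht.1, ht.2⟩
  have hmem : ∃ t ∈ Icc t1 1, A t = v := by
    rcases ht1v with ⟨h1, h2⟩ | ⟨h1, h2⟩
    · have := intermediate_value_Icc' ht1.2 hc1
      obtain ⟨t, ht, htv⟩ := this (show v ∈ Icc (A 1) (A t1) from ⟨by rw [hA1]; exact h1.le, h2.le⟩)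
      exact ⟨t, ht, htv⟩
    · have := intermediate_value_Icc ht1.2 hc1
      obtain ⟨t, ht, htv⟩ := this (show v ∈ Icc (A t1) (A 1) from ⟨h1.le, by rw [hA1]; exact h2.le⟩)
      exact ⟨t, ht, htv⟩
  obtain ⟨t, ht, htv⟩ := hmem
  have ht0 : 0 < t := ht1.1.trans_le ht.1
  refine ⟨Ct Q x t ht0, ?_, ?_, ?_, ?_⟩
  · rw [Ct_set]; exact St_sub hxQ ⟨ht0.le, ht.2⟩
  · rw [Ct_set]; exact mem_St hxQ ht0.le
  · show t * Q.side ≤ Q.side
    exact mul_le_of_le_one_left hs.le ht.2
  · rw [← hAm t ht0]; exact htv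

/-- if `f` is often close to its mean, then `f` has bounded mean oscillation -/
theorem osc_of_level {f : (Fin n → ℝ) → ℝ} (hf : LocallyIntegrable f) (hfm : Measurable f)
    {l : ℝ} {m : ℕ}
    (h : ∀ Q : Cube n, volume Q.set ≤ 2 ^ m * volume ({x | |f x - Q.mean f| ≤ l} ∩ Q.set))
    (Q : Cube n) :
    L1 Q (fun x => f x - Q.mean f) ≤ 5 ^ n * 2 ^ m * ENNReal.ofReal (2 * l) := by
  have hs := Q.side_pos
  have hQ0 : volume Q.set ≠ 0 := (vol_Q_pos Q).ne'
  have hQt : volume Q.set ≠ ∞ := (vol_Q_lt Q).ne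
  set a := Q.mean f with ha
  set S : Set ((Fin n → ℝ) × ℝ) := {z | (a < z.2 ∧ z.2 < f z.1) ∨ (f z.1 < z.2 ∧ z.2 < a)} with hS
  have hSm : MeasurableSet S := by
    refine MeasurableSet.union ?_ ?_
    · exact (measurableSet_lt measurable_const measurable_snd).inter
        (measurableSet_lt measurable_snd (hfm.comp measurable_fst))
    · exact (measurableSet_lt (hfm.comp measurable_fst) measurable_snd).inter
        (measurableSet_lt measurable_snd measurable_const)
  set S' : Set ((Fin n → ℝ) × ℝ) := {z | |f z.1 - z.2| ≤ l} with hS'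
  have hSm' : MeasurableSet S' := by
    refine measurableSet_le ?_ measurable_const
    exact ((hfm.comp measurable_fst).sub measurable_snd).abs
  -- the level sets
  have key : ∀ v : ℝ, volume ({x | (x, v) ∈ S} ∩ Q.set)
      ≤ 5 ^ n * 2 ^ m * volume ({x | (x, v) ∈ S'} ∩ Q.set) := by
    intro v
    set F : Set ((Fin n → ℝ) × ℝ) := {b | 0 < b.2 ∧ b.2 ≤ Q.side / 2 ∧ closedBall b.1 b.2 ⊆ Q.set ∧
      volume (closedBall b.1 b.2) ≤ 2 ^ m * volume ({x | (x, v) ∈ S'} ∩ closedBall b.1 b.2)} with hF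
    have hG : MeasurableSet {x : Fin n → ℝ | (x, v) ∈ S'} := by
      exact hSm'.preimage (by fun_prop : Measurable fun x : Fin n → ℝ => (x, v))
    have h1 := vit (F := F) (G := {x | (x, v) ∈ S'}) (S := Q.set) (t := 2 ^ m) (R := Q.side / 2)
      (fun b hb => ⟨hb.1, hb.2.1⟩) hG (fun b hb => hb.2.2.1) (fun b hb => hb.2.2.2)
    refine le_trans (measure_mono_ae ?_) h1
    filter_upwards [ivt hf Q] with x hx hxS
    obtain ⟨hxS1, hxQ⟩ := hxS
    obtain ⟨Q', hQ'1, hQ'2, hQ'3, hQ'4⟩ := hx hxQ v hxS1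
    refine mem_iUnion₂.2 ⟨(cen Q', Q'.side / 2), ⟨?_, ?_, ?_, ?_⟩, ?_⟩
    · have := Q'.side_pos
      show 0 < Q'.side / 2
      positivity
    · show Q'.side / 2 ≤ Q.side / 2
      linarith
    · show closedBall (cen Q') (Q'.side / 2) ⊆ Q.set
      rw [← set_eq]; exact hQ'1
    · show volume (closedBall (cen Q') (Q'.side / 2)) ≤ _
      rw [← set_eq]
      have := h Q'
      rw [hQ'4] at this
      exact this
    · rw [← set_eq]; exact hQ'2
  -- integrate
  have e1 : ∀ x : Fin n → ℝ, ‖f x - a‖ₑ = ∫⁻ v : ℝ, indicator S (fun _ => (1 : ℝ≥0∞)) (x, v) := by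
    intro x
    have : ∀ v : ℝ, indicator S (fun _ => (1 : ℝ≥0∞)) (x, v)
        = indicator (Ioo a (f x) ∪ Ioo (f x) a) (fun _ => (1 : ℝ≥0∞)) v := by
      intro v
      by_cases hv : v ∈ Ioo a (f x) ∪ Ioo (f x) a
      · rw [indicator_of_mem hv, indicator_of_mem]
        rcases hv with h1 | h1
        · exact Or.inl h1
        · exact Or.inr h1
      · rw [indicator_of_notMem hv, indicator_of_notMem]
        intro h1
        apply hv
        rcases h1 with h2 | h2
        · exact Or.inl h2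
        · exact Or.inr h2
    simp_rw [this]
    rw [lintegral_indicator (measurableSet_Ioo.union measurableSet_Ioo), setLIntegral_const, one_mul,
      measure_union (by
        rw [Set.disjoint_left]
        rintro v ⟨h1, h2⟩ ⟨h3, h4⟩
        linarith) measurableSet_Ioo, Real.volume_Ioo, Real.volume_Ioo, ← ofReal_norm,
      Real.norm_eq_abs]
    rcases le_total a (f x) with h1 | h1
    · rw [abs_of_nonneg (by linarith), ENNReal.ofReal_of_nonpos (by linarith : a - f x ≤ 0),
        add_zero]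
    · rw [abs_of_nonpos (by linarith), ENNReal.ofReal_of_nonpos (by linarith : f x - a ≤ 0),
        zero_add]
      congr 1; ring
  have e2 : ∀ x : Fin n → ℝ, ∫⁻ v : ℝ, indicator S' (fun _ => (1 : ℝ≥0∞)) (x, v)
      = ENNReal.ofReal (2 * l) := by
    intro x
    have : ∀ v : ℝ, indicator S' (fun _ => (1 : ℝ≥0∞)) (x, v)
        = indicator (Icc (f x - l) (f x + l)) (fun _ => (1 : ℝ≥0∞)) v := by
      intro v
      have hiff : (x, v) ∈ S' ↔ v ∈ Icc (f x - l) (f x + l) := by
        show |f x - v| ≤ l ↔ _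
        rw [abs_le, mem_Icc]
        constructor
        · rintro ⟨h1, h2⟩; exact ⟨by linarith, by linarith⟩
        · rintro ⟨h1, h2⟩; exact ⟨by linarith, by linarith⟩
      by_cases hv : v ∈ Icc (f x - l) (f x + l)
      · rw [indicator_of_mem hv, indicator_of_mem (hiff.2 hv)]
      · rw [indicator_of_notMem hv, indicator_of_notMem (fun h1 => hv (hiff.1 h1))]
    simp_rw [this]
    rw [lintegral_indicator measurableSet_Icc, setLIntegral_const, one_mul, Real.volume_Icc]
    congr 1; ring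
  have e3 : ∀ (T : Set ((Fin n → ℝ) × ℝ)) (_ : MeasurableSet T) (v : ℝ),
      ∫⁻ x in Q.set, indicator T (fun _ => (1 : ℝ≥0∞)) (x, v) = volume ({x | (x, v) ∈ T} ∩ Q.set) := by
    intro T hT v
    have hTv : MeasurableSet {x : Fin n → ℝ | (x, v) ∈ T} :=
      hT.preimage (by fun_prop : Measurable fun x : Fin n → ℝ => (x, v))
    have : ∀ x, indicator T (fun _ => (1 : ℝ≥0∞)) (x, v)
        = indicator {x | (x, v) ∈ T} (fun _ => (1 : ℝ≥0∞)) x := fun x => rfl
    simp_rw [this]
    rw [lintegral_indicator hTv, setLIntegral_const, one_mul, Measure.restrict_apply hTv]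
  have hmain : ∫⁻ x in Q.set, ‖f x - a‖ₑ ≤ 5 ^ n * 2 ^ m * ENNReal.ofReal (2 * l) * volume Q.set := by
    calc ∫⁻ x in Q.set, ‖f x - a‖ₑ
        = ∫⁻ x in Q.set, ∫⁻ v : ℝ, indicator S (fun _ => (1 : ℝ≥0∞)) (x, v) := by simp_rw [e1]
      _ = ∫⁻ v : ℝ, ∫⁻ x in Q.set, indicator S (fun _ => (1 : ℝ≥0∞)) (x, v) := by
          refine lintegral_lintegral_swap ?_
          exact (measurable_const.indicator hSm).aemeasurable
      _ ≤ ∫⁻ v : ℝ, 5 ^ n * 2 ^ m * ∫⁻ x in Q.set, indicator S' (fun _ => (1 : ℝ≥0∞)) (x, v) := by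
          refine lintegral_mono fun v => ?_
          rw [e3 S hSm v, e3 S' hSm' v]
          exact key v
      _ = 5 ^ n * 2 ^ m * ∫⁻ v : ℝ, ∫⁻ x in Q.set, indicator S' (fun _ => (1 : ℝ≥0∞)) (x, v) := by
          rw [lintegral_const_mul']
          exact ENNReal.mul_ne_top (by simp) (by simp)
      _ = 5 ^ n * 2 ^ m * ∫⁻ x in Q.set, ∫⁻ v : ℝ, indicator S' (fun _ => (1 : ℝ≥0∞)) (x, v) := by
          congr 1
          refine (lintegral_lintegral_swap ?_).symm
          exact (measurable_const.indicator hSm').aemeasurable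
      _ = _ := by
          simp_rw [e2]
          rw [setLIntegral_const]; ring
  unfold L1
  calc (volume Q.set)⁻¹ * ∫⁻ x in Q.set, ‖f x - a‖ₑ
      ≤ (volume Q.set)⁻¹ * (5 ^ n * 2 ^ m * ENNReal.ofReal (2 * l) * volume Q.set) := by gcongr
    _ = 5 ^ n * 2 ^ m * ENNReal.ofReal (2 * l) * ((volume Q.set)⁻¹ * volume Q.set) := by ring
    _ = _ := by rw [ENNReal.inv_mul_cancel hQ0 hQt, mul_one]

end Pool.Agent.N246.BX
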