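import Pool.Agent.N246.BX.Vit

/-! The characteristic functions of small sets have small norm. -/

set_option autoImplicit false
open MeasureTheory Set Filter Topology Metric
open scoped ENNReal NNReal

namespace Pool.Agent.N246.BX

open Pool.Agent.R884.BMOStar

variable {n : ℕ}

/-- level sets with `G` added -/
def Lv (G : Set (Fin n → ℝ)) (k : ℕ) : Set (Fin n → ℝ) := lev G k ∪ G

theorem Lv_meas {G : Set (Fin n → ℝ)} (hG : MeasurableSet G) (k : ℕ) : MeasurableSet (Lv G k) :=
  (lev_open G k).measurableSet.union hG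

theorem Lv_mono (G : Set (Fin n → ℝ)) {k l : ℕ} (h : k ≤ l) : Lv G k ⊆ Lv G l :=
  union_subset_union_left _ (lev_mono G h)

/-- the function -/
noncomputable def hf (G : Set (Fin n → ℝ)) (m : ℕ) (x : Fin n → ℝ) : ℝ :=
  ∑ k ∈ Finset.range m, indicator (Lv G (k + 1)) (fun _ => (1 : ℝ)) x

theorem hf_meas {G : Set (Fin n → ℝ)} (hG : MeasurableSet G) (m : ℕ) : Measurable (hf G m) := by
  unfold hf
  exact Finset.measurable_fun_sum _ fun k _ => measurable_const.indicator (Lv_meas hG _)

theorem hf_nonneg (G : Set (Fin n → ℝ)) (m : ℕ) (x : Fin n → ℝ) : 0 ≤ hf G m x :=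
  Finset.sum_nonneg fun k _ => indicator_nonneg (fun _ _ => zero_le_one) x

theorem hf_le (G : Set (Fin n → ℝ)) (m : ℕ) (x : Fin n → ℝ) : hf G m x ≤ m := by
  unfold hf
  calc ∑ k ∈ Finset.range m, indicator (Lv G (k + 1)) (fun _ => (1 : ℝ)) x
      ≤ ∑ k ∈ Finset.range m, (1 : ℝ) := by
        refine Finset.sum_le_sum fun k _ => ?_
        exact indicator_le_self' (fun _ _ => zero_le_one) x
    _ = m := by simp

theorem hf_eq {G : Set (Fin n → ℝ)} (m : ℕ) {x : Fin n → ℝ} (hx : x ∈ G) : hf G m x = m := by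
  unfold hf
  rw [Finset.sum_congr rfl fun k _ => indicator_of_mem (show x ∈ Lv G (k + 1) from Or.inr hx) _]
  simp

theorem hf_loc {G : Set (Fin n → ℝ)} (hG : MeasurableSet G) (m : ℕ) :
    LocallyIntegrable (hf G m) := by
  refine (locallyIntegrable_const (m : ℝ)).mono (hf_meas hG m).aestronglyMeasurable
    (Eventually.of_forall fun x => ?_)
  rw [Real.norm_eq_abs, Real.norm_eq_abs, abs_of_nonneg (hf_nonneg G m x),
    abs_of_nonneg (by positivity)]
  exact hf_le G m x

theorem locInt_on {f : (Fin n → ℝ) → ℝ} (hf : LocallyIntegrable f) (Q : Cube n) :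
    IntegrableOn f Q.set := hf.integrableOn_isCompact isCompact_Icc

/-- oscillation about the mean and about a constant -/
theorem osc_mean {f : (Fin n → ℝ) → ℝ} (hf : LocallyIntegrable f) (Q : Cube n) (c : ℝ) :
    L1 Q (fun x => f x - Q.mean f) ≤ 2 * L1 Q (fun x => f x - c) := by
  have hQ0 : volume Q.set ≠ 0 := (vol_Q_pos Q).ne'
  have hQt : volume Q.set ≠ ∞ := (vol_Q_lt Q).ne
  have hi := locInt_on hf Q
  have hic : IntegrableOn (fun x => f x - c) Q.set := hi.sub (integrableOn_const hQt)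
  have h1 : ‖c - Q.mean f‖ₑ ≤ L1 Q (fun x => f x - c) := by
    have e : Q.mean f - c = ⨍ x in Q.set, (f x - c) := by
      rw [Cube.mean, setAverage_eq, setAverage_eq, integral_sub hi (integrableOn_const hQt),
        setIntegral_const, smul_sub, smul_smul, inv_mul_cancel₀, one_smul]
      rw [measureReal_def]
      exact (ENNReal.toReal_pos hQ0 hQt).ne'
    rw [← enorm_neg, neg_sub, e, setAverage_eq, enorm_smul]
    unfold L1
    refine mul_le_mul' ?_ (enorm_integral_le_lintegral_enorm _)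
    rw [← ofReal_norm, norm_inv, Real.norm_eq_abs, measureReal_def,
      abs_of_nonneg ENNReal.toReal_nonneg, ENNReal.ofReal_inv_of_pos (ENNReal.toReal_pos hQ0 hQt),
      ENNReal.ofReal_toReal hQt]
  calc L1 Q (fun x => f x - Q.mean f)
      ≤ (volume Q.set)⁻¹ * ∫⁻ x in Q.set, (‖f x - c‖ₑ + ‖c - Q.mean f‖ₑ) := by
        unfold L1
        gcongr with x
        calc ‖f x - Q.mean f‖ₑ = ‖(f x - c) + (c - Q.mean f)‖ₑ := by congr 1; ring
          _ ≤ _ := enorm_add_le _ _
    _ = L1 Q (fun x => f x - c) + ‖c - Q.mean f‖ₑ := by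
        rw [lintegral_add_right _ measurable_const, mul_add, lintegral_const,
          Measure.restrict_apply_univ]
        unfold L1
        congr 1
        rw [mul_comm ‖c - Q.mean f‖ₑ, ← mul_assoc, ENNReal.inv_mul_cancel hQ0 hQt, one_mul]
    _ ≤ L1 Q (fun x => f x - c) + L1 Q (fun x => f x - c) := by gcongr
    _ = _ := by rw [two_mul]

/-- bound for a level set -/
theorem Lv_bound {G : Set (Fin n → ℝ)} (hG : MeasurableSet G) (Q : Cube n) {k l : ℕ} (hkl : k ≤ l)
    (hl : ¬ Q.set ⊆ Lv G (l + 1)) :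
    volume (Lv G (k + 1) ∩ Q.set) * 2 ^ (l - k) ≤ 2 * 30 ^ n * volume Q.set := by
  have hs := Q.side_pos
  obtain ⟨x0, hx0, hxl⟩ := not_subset.1 hl
  have hxlev : x0 ∉ lev G (l + 1) := fun h => hxl (Or.inl h)
  by_cases hkn : k + n ≤ l
  · have h1 := lev_loc (n := n) hG (k := k + 1) (l := l + 1) (by omega) (c := cen Q) (x0 := x0)
      (r0 := Q.side / 2) (by positivity) (by rw [← set_eq]; exact hx0) hxlev
    rw [← set_eq] at h1
    have e1 : (2 : ℝ≥0∞) ^ (l + 1) = 2 ^ (l - k) * 2 ^ (k + 1) := by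
      rw [← pow_add]; congr 1; omega
    have h1' : volume (lev G (k + 1) ∩ Q.set) * 2 ^ (l - k) ≤ 30 ^ n * volume Q.set := by
      have h2 : volume (lev G (k + 1) ∩ Q.set) * 2 ^ (l - k) * 2 ^ (k + 1)
          ≤ 30 ^ n * volume Q.set * 2 ^ (k + 1) := by
        calc volume (lev G (k + 1) ∩ Q.set) * 2 ^ (l - k) * 2 ^ (k + 1)
            = volume (lev G (k + 1) ∩ Q.set) * 2 ^ (l + 1) := by rw [e1]; ring
          _ ≤ 5 ^ n * 2 ^ (k + 1) * 6 ^ n * volume Q.set := h1
          _ = _ := by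
              rw [show (30 : ℝ≥0∞) = 5 * 6 by norm_num, mul_pow]; ring
      exact (ENNReal.mul_le_mul_iff_left (by simp) (by simp)).1 h2
    -- the set `G`
    have h3 : 2 ^ (l + 1) * volume (G ∩ Q.set) ≤ 2 ^ n * volume Q.set := by
      have hb : x0 ∈ ball (cen Q) (2 * (Q.side / 2)) := by
        rw [set_eq, mem_closedBall] at hx0
        rw [mem_ball]; linarith
      have h4 : 2 ^ (l + 1) * volume (G ∩ ball (cen Q) (2 * (Q.side / 2)))
          ≤ volume (ball (cen Q) (2 * (Q.side / 2))) := by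
        by_contra hcon
        push Not at hcon
        exact hxlev ⟨_, _, by positivity, hb, hcon⟩
      calc 2 ^ (l + 1) * volume (G ∩ Q.set)
          ≤ 2 ^ (l + 1) * volume (G ∩ ball (cen Q) (2 * (Q.side / 2))) := by
            gcongr
            rw [set_eq]
            exact closedBall_subset_ball (by linarith)
        _ ≤ volume (ball (cen Q) (2 * (Q.side / 2))) := h4
        _ = 2 ^ n * volume Q.set := by
            rw [vol_ball _ (by positivity), vol_smul _ (by positivity) (by norm_num), set_eq]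
            congr 1
            rw [ENNReal.ofReal_pow (by norm_num)]; norm_num
    have h3' : volume (G ∩ Q.set) * 2 ^ (l - k) ≤ 30 ^ n * volume Q.set := by
      calc volume (G ∩ Q.set) * 2 ^ (l - k) ≤ volume (G ∩ Q.set) * 2 ^ (l + 1) := by
            gcongr
            · norm_num
            · omega
        _ = 2 ^ (l + 1) * volume (G ∩ Q.set) := mul_comm _ _
        _ ≤ 2 ^ n * volume Q.set := h3
        _ ≤ _ := by gcongr; norm_num
    calc volume (Lv G (k + 1) ∩ Q.set) * 2 ^ (l - k)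
        ≤ (volume (lev G (k + 1) ∩ Q.set) + volume (G ∩ Q.set)) * 2 ^ (l - k) := by
          gcongr
          rw [Lv, union_inter_distrib_right]
          exact measure_union_le _ _
      _ = volume (lev G (k + 1) ∩ Q.set) * 2 ^ (l - k) + volume (G ∩ Q.set) * 2 ^ (l - k) := by
          rw [add_mul]
      _ ≤ 30 ^ n * volume Q.set + 30 ^ n * volume Q.set := add_le_add h1' h3'
      _ = _ := by ring
  · calc volume (Lv G (k + 1) ∩ Q.set) * 2 ^ (l - k) ≤ volume Q.set * 2 ^ n := by
          gcongr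
          · exact inter_subset_right
          · norm_num
          · omega
      _ ≤ (2 * 30 ^ n) * volume Q.set := by
          rw [mul_comm]
          gcongr
          calc (2 : ℝ≥0∞) ^ n ≤ 30 ^ n := by gcongr; norm_num
            _ ≤ 2 * 30 ^ n := by
              rw [two_mul]; exact le_self_add

theorem geo_sum (l : ℕ) : ∑ k ∈ Finset.range (l + 1), ((2 : ℝ≥0∞)⁻¹) ^ (l - k) ≤ 2 := by
  have h1 : ∑ k ∈ Finset.range (l + 1), ((2 : ℝ≥0∞)⁻¹) ^ (l - k)
      = ∑ k ∈ Finset.range (l + 1), ((2 : ℝ≥0∞)⁻¹) ^ k := by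
    have := Finset.sum_range_reflect (fun j => ((2 : ℝ≥0∞)⁻¹) ^ j) (l + 1)
    rw [← this]
    refine Finset.sum_congr rfl fun k _ => ?_
    congr 1
  rw [h1]
  refine (ENNReal.sum_le_tsum _).trans ?_
  rw [ENNReal.tsum_geometric]
  rw [ENNReal.one_sub_inv_two, inv_inv]

/-- the mean oscillation of `hf` -/
theorem hf_bmo {G : Set (Fin n → ℝ)} (hG : MeasurableSet G) (m : ℕ) :
    bmoX L1 (hf G m) ≤ 8 * 30 ^ n := by
  refine iSup_le fun Q => ?_
  have hQ0 : volume Q.set ≠ 0 := (vol_Q_pos Q).ne'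
  have hQt : volume Q.set ≠ ∞ := (vol_Q_lt Q).ne
  classical
  set T : Finset ℕ := (Finset.range m).filter (fun k => ¬ Q.set ⊆ Lv G (k + 1)) with hT
  set T' : Finset ℕ := (Finset.range m).filter (fun k => Q.set ⊆ Lv G (k + 1)) with hT'
  set c : ℝ := (T'.card : ℝ) with hc
  refine (osc_mean (hf_loc hG m) Q c).trans ?_
  have h1 : ∀ x ∈ Q.set, hf G m x - c = ∑ k ∈ T, indicator (Lv G (k + 1)) (fun _ => (1 : ℝ)) x := by
    intro x hx
    unfold hf
    rw [← Finset.sum_filter_add_sum_filter_not (Finset.range m) (fun k => Q.set ⊆ Lv G (k + 1))]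
    have e : ∑ k ∈ (Finset.range m).filter (fun k => Q.set ⊆ Lv G (k + 1)),
        indicator (Lv G (k + 1)) (fun _ => (1 : ℝ)) x = c := by
      have e0 : ∀ k ∈ (Finset.range m).filter (fun k => Q.set ⊆ Lv G (k + 1)),
          indicator (Lv G (k + 1)) (fun _ => (1 : ℝ)) x = 1 := by
        intro k hk
        have hsub : Q.set ⊆ Lv G (k + 1) := (Finset.mem_filter.1 hk).2
        exact indicator_of_mem (hsub hx) _
      rw [Finset.sum_congr rfl e0]
      simp [hc, hT']
    rw [e]; ring
  have h2 : L1 Q (fun x => hf G m x - c)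
      ≤ (volume Q.set)⁻¹ * ∑ k ∈ T, volume (Lv G (k + 1) ∩ Q.set) := by
    unfold L1
    gcongr
    calc ∫⁻ x in Q.set, ‖hf G m x - c‖ₑ
        ≤ ∫⁻ x in Q.set, ∑ k ∈ T, indicator (Lv G (k + 1)) (fun _ => (1 : ℝ≥0∞)) x := by
          refine setLIntegral_mono' (meas_Q Q) fun x hx => ?_
          rw [h1 x hx]
          refine (enorm_sum_le _ _).trans (Finset.sum_le_sum fun k _ => ?_)
          by_cases hxk : x ∈ Lv G (k + 1)
          · rw [indicator_of_mem hxk, indicator_of_mem hxk]; simp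
          · rw [indicator_of_notMem hxk, indicator_of_notMem hxk]; simp
      _ = ∑ k ∈ T, volume (Lv G (k + 1) ∩ Q.set) := by
          rw [lintegral_finsetSum _ fun k _ => measurable_const.indicator (Lv_meas hG _)]
          refine Finset.sum_congr rfl fun k _ => ?_
          rw [lintegral_indicator (Lv_meas hG _), setLIntegral_const, one_mul,
            Measure.restrict_apply (Lv_meas hG _)]
  have h3 : ∑ k ∈ T, volume (Lv G (k + 1) ∩ Q.set) ≤ 4 * 30 ^ n * volume Q.set := by
    by_cases hTe : T.Nonempty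
    · set l := T.max' hTe with hl
      have hlT : l ∈ T := T.max'_mem hTe
      have hlQ : ¬ Q.set ⊆ Lv G (l + 1) := (Finset.mem_filter.1 hlT).2
      calc ∑ k ∈ T, volume (Lv G (k + 1) ∩ Q.set)
          ≤ ∑ k ∈ T, (2 * 30 ^ n * volume Q.set) * ((2 : ℝ≥0∞)⁻¹) ^ (l - k) := by
            refine Finset.sum_le_sum fun k hk => ?_
            have hkl : k ≤ l := T.le_max' k hk
            have := Lv_bound hG Q hkl hlQ
            calc volume (Lv G (k + 1) ∩ Q.set)
                = (volume (Lv G (k + 1) ∩ Q.set) * 2 ^ (l - k)) * ((2 : ℝ≥0∞)⁻¹) ^ (l - k) := by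
                  rw [mul_assoc, ← mul_pow, ENNReal.mul_inv_cancel (by simp) (by simp), one_pow,
                    mul_one]
              _ ≤ _ := by gcongr
        _ ≤ ∑ k ∈ Finset.range (l + 1), (2 * 30 ^ n * volume Q.set) * ((2 : ℝ≥0∞)⁻¹) ^ (l - k) := by
            refine Finset.sum_le_sum_of_subset fun k hk => ?_
            exact Finset.mem_range.2 (Nat.lt_succ_of_le (T.le_max' k hk))
        _ = (2 * 30 ^ n * volume Q.set) * ∑ k ∈ Finset.range (l + 1), ((2 : ℝ≥0∞)⁻¹) ^ (l - k) := by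
            rw [Finset.mul_sum]
        _ ≤ (2 * 30 ^ n * volume Q.set) * 2 := by gcongr; exact geo_sum l
        _ = _ := by ring
    · rw [Finset.not_nonempty_iff_eq_empty] at hTe
      rw [hTe, Finset.sum_empty]; exact zero_le
  calc 2 * L1 Q (fun x => hf G m x - c)
      ≤ 2 * ((volume Q.set)⁻¹ * (4 * 30 ^ n * volume Q.set)) := by
        gcongr
        exact h2.trans (by gcongr)
    _ = 8 * 30 ^ n * ((volume Q.set)⁻¹ * volume Q.set) := by ring
    _ = 8 * 30 ^ n := by rw [ENNReal.inv_mul_cancel hQ0 hQt, mul_one]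

/-- the mean of `hf` over a cube in which `G` is small -/
theorem hf_mean (hn : 1 ≤ n) {G : Set (Fin n → ℝ)} (hG : MeasurableSet G) (Q : Cube n) (m : ℕ)
    (hGm : volume G * 2 ^ m ≤ volume Q.set) : Q.mean (hf G m) ≤ 4 * 5 ^ n := by
  have hQ0 : volume Q.set ≠ 0 := (vol_Q_pos Q).ne'
  have hQt : volume Q.set ≠ ∞ := (vol_Q_lt Q).ne
  have hGf : volume G < ∞ := by
    refine lt_of_le_of_lt ?_ (lt_of_le_of_lt hGm (vol_Q_lt Q))
    calc volume G = volume G * 1 := (mul_one _).symm
      _ ≤ _ := by gcongr; exact one_le_pow₀ (by norm_num)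
  have h1 : ∫⁻ x in Q.set, ‖hf G m x‖ₑ ≤ 4 * 5 ^ n * volume Q.set := by
    calc ∫⁻ x in Q.set, ‖hf G m x‖ₑ ≤ ∫⁻ x, ‖hf G m x‖ₑ := setLIntegral_le_lintegral _ _
      _ ≤ ∫⁻ x, ∑ k ∈ Finset.range m, indicator (Lv G (k + 1)) (fun _ => (1 : ℝ≥0∞)) x := by
          refine lintegral_mono fun x => ?_
          unfold hf
          refine (enorm_sum_le _ _).trans (Finset.sum_le_sum fun k _ => ?_)
          by_cases hxk : x ∈ Lv G (k + 1)
          · rw [indicator_of_mem hxk, indicator_of_mem hxk]; simp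
          · rw [indicator_of_notMem hxk, indicator_of_notMem hxk]; simp
      _ = ∑ k ∈ Finset.range m, volume (Lv G (k + 1)) := by
          rw [lintegral_finsetSum _ fun k _ => measurable_const.indicator (Lv_meas hG _)]
          refine Finset.sum_congr rfl fun k _ => ?_
          rw [lintegral_indicator (Lv_meas hG _), setLIntegral_const, one_mul]
      _ ≤ ∑ k ∈ Finset.range m, (2 * 5 ^ n) * volume G * 2 ^ (k + 1) := by
          refine Finset.sum_le_sum fun k _ => ?_
          calc volume (Lv G (k + 1)) ≤ volume (lev G (k + 1)) + volume G := measure_union_le _ _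
            _ ≤ 5 ^ n * 2 ^ (k + 1) * volume G + 5 ^ n * 2 ^ (k + 1) * volume G := by
                refine add_le_add (lev_le hn hG hGf _) ?_
                calc volume G = 1 * volume G := (one_mul _).symm
                  _ ≤ 5 ^ n * 2 ^ (k + 1) * volume G := by
                    gcongr
                    exact one_le_mul (one_le_pow₀ (by norm_num)) (one_le_pow₀ (by norm_num))
            _ = _ := by ring
      _ = (2 * 5 ^ n) * volume G * ∑ k ∈ Finset.range m, 2 ^ (k + 1) := by rw [Finset.mul_sum]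
      _ ≤ (2 * 5 ^ n) * volume G * (2 * 2 ^ m) := by
          gcongr
          have h2 : ∀ m : ℕ, ∑ k ∈ Finset.range m, (2 : ℕ) ^ (k + 1) ≤ 2 * 2 ^ m := by
            intro m
            induction m with
            | zero => simp
            | succ m ih => rw [Finset.sum_range_succ, pow_succ 2 m]; omega
          have := h2 m
          exact_mod_cast this
      _ = 4 * 5 ^ n * (volume G * 2 ^ m) := by ring
      _ ≤ _ := by gcongr
  have h2 : ‖Q.mean (hf G m)‖ₑ ≤ 4 * 5 ^ n := by
    rw [Cube.mean, setAverage_eq, enorm_smul]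
    calc ‖(volume.real Q.set)⁻¹‖ₑ * ‖∫ x in Q.set, hf G m x‖ₑ
        ≤ (volume Q.set)⁻¹ * (4 * 5 ^ n * volume Q.set) := by
          refine mul_le_mul' ?_ ((enorm_integral_le_lintegral_enorm _).trans h1)
          rw [← ofReal_norm, norm_inv, Real.norm_eq_abs, measureReal_def,
            abs_of_nonneg ENNReal.toReal_nonneg,
            ENNReal.ofReal_inv_of_pos (ENNReal.toReal_pos hQ0 hQt), ENNReal.ofReal_toReal hQt]
      _ = 4 * 5 ^ n * ((volume Q.set)⁻¹ * volume Q.set) := by ring
      _ = _ := by rw [ENNReal.inv_mul_cancel hQ0 hQt, mul_one]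
  have h3 : ENNReal.ofReal (Q.mean (hf G m)) ≤ ENNReal.ofReal (4 * 5 ^ n) := by
    refine (Real.ofReal_le_enorm _).trans (h2.trans (le_of_eq ?_))
    rw [ENNReal.ofReal_mul (by norm_num), ENNReal.ofReal_pow (by norm_num)]
    norm_num
  exact (ENNReal.ofReal_le_ofReal_iff (by positivity)).1 h3

/-- the norm of the characteristic function of a small set -/
theorem small (hn : 1 ≤ n) {X : Family n} (hX : ∀ Q, IsQuasiBanachFunctionNorm Q (X Q)) {C : ℝ≥0}
    (hC : ∀ f ∈ BMO n, bmoX X f ≤ C * bmoX L1 f) {G : Set (Fin n → ℝ)} (hG : MeasurableSet G)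
    (Q : Cube n) (m : ℕ) (hGm : volume G * 2 ^ m ≤ volume Q.set) (hm : 4 * 5 ^ n < (m : ℝ)) :
    ENNReal.ofReal ((m : ℝ) - 4 * 5 ^ n) * X Q (indicator G fun _ => 1) ≤ C * (8 * 30 ^ n) := by
  have h1 : hf G m ∈ BMO n := ⟨hf_loc hG m, lt_of_le_of_lt (hf_bmo hG m) (by
    refine ENNReal.mul_lt_top (by simp) ?_
    exact ENNReal.pow_lt_top (by simp))⟩
  have hmeas : AEMeasurable (indicator G fun _ => (1 : ℝ)) Q.leb :=
    (measurable_const.indicator hG).aemeasurable
  have h2 : ENNReal.ofReal ((m : ℝ) - 4 * 5 ^ n) * X Q (indicator G fun _ => 1)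
      = X Q (fun x => ((m : ℝ) - 4 * 5 ^ n) * indicator G (fun _ => 1) x) := by
    rw [(hX Q).smul _ _ hmeas, abs_of_pos (by linarith)]
  rw [h2]
  calc X Q (fun x => ((m : ℝ) - 4 * 5 ^ n) * indicator G (fun _ => 1) x)
      ≤ X Q (fun x => hf G m x - Q.mean (hf G m)) := by
        refine (hX Q).mono _ _ (hmeas.const_mul _)
          ((hf_meas hG m).sub_const _).aemeasurable (Eventually.of_forall fun x => ?_)
        by_cases hx : x ∈ G
        · rw [indicator_of_mem hx, mul_one, hf_eq m hx, abs_of_pos (by linarith)]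
          have := hf_mean hn hG Q m hGm
          exact (by linarith : (m : ℝ) - 4 * 5 ^ n ≤ (m : ℝ) - Q.mean (hf G m)).trans (le_abs_self _)
        · rw [indicator_of_notMem hx, mul_zero, abs_zero]
          exact abs_nonneg _
    _ ≤ bmoX X (hf G m) := le_iSup (fun Q : Cube n => X Q (fun x => hf G m x - Q.mean (hf G m))) Q
    _ ≤ C * bmoX L1 (hf G m) := hC _ h1
    _ ≤ C * (8 * 30 ^ n) := by gcongr; exact hf_bmo hG m

end Pool.Agent.N246.BX
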