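import Pool.Agent.R884.BMOStar.Proof

/-! Covering lemma for cubes. -/

set_option autoImplicit false
open MeasureTheory Set Filter Topology Metric
open scoped ENNReal NNReal

namespace Pool.Agent.N246.BX

open Pool.Agent.R884.BMOStar

variable {n : ℕ}

theorem vol_smul (x : Fin n → ℝ) {r c : ℝ} (hr : 0 ≤ r) (hc : 0 ≤ c) :
    volume (closedBall x (c * r)) = ENNReal.ofReal (c ^ n) * volume (closedBall x r) := by
  rw [Real.volume_pi_closedBall x (by positivity), Real.volume_pi_closedBall x hr,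
    ← ENNReal.ofReal_mul (by positivity), Fintype.card_fin]
  congr 1
  rw [← mul_pow]; ring

theorem vol_move (x y : Fin n → ℝ) {r : ℝ} (hr : 0 ≤ r) :
    volume (closedBall x r) = volume (closedBall y r) := by
  rw [Real.volume_pi_closedBall x hr, Real.volume_pi_closedBall y hr]

theorem vol_pos (x : Fin n → ℝ) {r : ℝ} (hr : 0 < r) : 0 < volume (closedBall x r) := by
  rw [Real.volume_pi_closedBall x hr.le, ENNReal.ofReal_pos]
  positivity

theorem vol_ball (x : Fin n → ℝ) {r : ℝ} (hr : 0 < r) :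
    volume (ball x r) = volume (closedBall x r) := by
  rw [Real.volume_pi_closedBall x hr.le, Real.volume_pi_ball x hr]

/-- Vitali -/
theorem vit {F : Set ((Fin n → ℝ) × ℝ)} {R : ℝ} (hF : ∀ a ∈ F, 0 < a.2 ∧ a.2 ≤ R)
    {G S : Set (Fin n → ℝ)} (hG : MeasurableSet G) {t : ℝ≥0∞}
    (hS : ∀ a ∈ F, closedBall a.1 a.2 ⊆ S)
    (ht : ∀ a ∈ F, volume (closedBall a.1 a.2) ≤ t * volume (G ∩ closedBall a.1 a.2)) :
    volume (⋃ a ∈ F, closedBall a.1 a.2) ≤ 5 ^ n * t * volume (G ∩ S) := by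
  obtain ⟨u, huF, hdis, hcov⟩ := Vitali.exists_disjoint_subfamily_covering_enlargement_closedBall F
    Prod.fst Prod.snd R (fun a ha => (hF a ha).2) 5 (by norm_num)
  have hcount : u.Countable := by
    refine hdis.countable_of_nonempty_interior fun a ha => ?_
    rw [interior_closedBall _ (hF a (huF ha)).1.ne']
    exact ⟨a.1, mem_ball_self (hF a (huF ha)).1⟩
  calc volume (⋃ a ∈ F, closedBall a.1 a.2)
      ≤ volume (⋃ b ∈ u, closedBall b.1 (5 * b.2)) := by
        refine measure_mono (iUnion₂_subset fun a ha => ?_)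
        obtain ⟨b, hb, hab⟩ := hcov a ha
        exact hab.trans (subset_biUnion_of_mem (u := fun b => closedBall b.1 (5 * b.2)) hb)
    _ ≤ ∑' b : u, volume (closedBall (b : (Fin n → ℝ) × ℝ).1 (5 * (b : (Fin n → ℝ) × ℝ).2)) :=
        measure_biUnion_le _ hcount _
    _ ≤ ∑' b : u, 5 ^ n * t * volume (G ∩ closedBall (b : (Fin n → ℝ) × ℝ).1
          (b : (Fin n → ℝ) × ℝ).2) := by
        refine ENNReal.tsum_le_tsum fun b => ?_
        have hb := huF b.2
        rw [vol_smul _ (hF b hb).1.le (by norm_num : (0:ℝ) ≤ 5)]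
        have e5 : ENNReal.ofReal ((5 : ℝ) ^ n) = 5 ^ n := by
          rw [ENNReal.ofReal_pow (by norm_num)]; norm_num
        rw [e5, mul_assoc]
        gcongr
        exact ht b hb
    _ = 5 ^ n * t * ∑' b : u, volume (G ∩ closedBall (b : (Fin n → ℝ) × ℝ).1
          (b : (Fin n → ℝ) × ℝ).2) := ENNReal.tsum_mul_left
    _ = 5 ^ n * t * volume (⋃ b ∈ u, G ∩ closedBall b.1 b.2) := by
        rw [measure_biUnion hcount ?_ fun b _ => hG.inter isClosed_closedBall.measurableSet]
        exact hdis.mono fun b => inter_subset_right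
    _ ≤ 5 ^ n * t * volume (G ∩ S) := by
        gcongr
        exact iUnion₂_subset fun b hb => inter_subset_inter_right _ (hS b (huF hb))

/-- the centre of a cube -/
noncomputable def cen (Q : Cube n) : Fin n → ℝ := fun i => Q.corner i + Q.side / 2

theorem set_eq (Q : Cube n) : Q.set = closedBall (cen Q) (Q.side / 2) := by
  have hs := Q.side_pos
  ext x
  rw [Cube.set, mem_Icc, mem_closedBall, dist_pi_le_iff (by positivity), Pi.le_def, Pi.le_def]
  constructor
  · rintro ⟨h1, h2⟩ i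
    rw [Real.dist_eq, abs_le]
    simp only [cen]
    exact ⟨by linarith [h1 i], by linarith [h2 i]⟩
  · intro h
    refine ⟨fun i => ?_, fun i => ?_⟩
    · have := h i
      rw [Real.dist_eq, abs_le] at this
      simp only [cen] at this
      linarith [this.1]
    · have := h i
      rw [Real.dist_eq, abs_le] at this
      simp only [cen] at this
      linarith [this.2]

/-- the cube with given centre and radius -/
noncomputable def mkC (z : Fin n → ℝ) (r : ℝ) (hr : 0 < r) : Cube n :=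
  ⟨fun i => z i - r, 2 * r, by positivity⟩

theorem mkC_set (z : Fin n → ℝ) {r : ℝ} (hr : 0 < r) : (mkC z r hr).set = closedBall z r := by
  rw [set_eq]
  congr 1
  · ext i; simp only [cen, mkC]; ring
  · simp only [mkC]; ring

theorem vol_Q_pos (Q : Cube n) : 0 < volume Q.set := by
  rw [set_eq]; exact vol_pos _ (by have := Q.side_pos; positivity)

theorem vol_Q_lt (Q : Cube n) : volume Q.set < ∞ := by
  rw [set_eq]; exact measure_closedBall_lt_top

theorem meas_Q (Q : Cube n) : MeasurableSet Q.set := measurableSet_Icc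

/-- the level sets -/
def lev (G : Set (Fin n → ℝ)) (k : ℕ) : Set (Fin n → ℝ) :=
  {x | ∃ z r, 0 < r ∧ x ∈ ball z r ∧ volume (ball z r) < 2 ^ k * volume (G ∩ ball z r)}

theorem lev_open (G : Set (Fin n → ℝ)) (k : ℕ) : IsOpen (lev G k) := by
  rw [isOpen_iff_mem_nhds]
  rintro x ⟨z, r, hr, hx, hv⟩
  exact mem_of_superset (isOpen_ball.mem_nhds hx) fun y hy => ⟨z, r, hr, hy, hv⟩

theorem lev_mono (G : Set (Fin n → ℝ)) {k l : ℕ} (h : k ≤ l) : lev G k ⊆ lev G l := by
  rintro x ⟨z, r, hr, hx, hv⟩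
  refine ⟨z, r, hr, hx, hv.trans_le ?_⟩
  gcongr
  norm_num

/-- measure of the level sets, crude form -/
theorem lev_le (hn : 1 ≤ n) {G : Set (Fin n → ℝ)} (hG : MeasurableSet G) (hGf : volume G < ∞)
    (k : ℕ) : volume (lev G k) ≤ 5 ^ n * 2 ^ k * volume G := by
  set F : Set ((Fin n → ℝ) × ℝ) :=
    {a | 0 < a.2 ∧ volume (ball a.1 a.2) < 2 ^ k * volume (G ∩ ball a.1 a.2)} with hF
  have hbd : ∃ R : ℝ, ∀ a ∈ F, 0 < a.2 ∧ a.2 ≤ R := by
    refine ⟨max 1 ((2 : ℝ) ^ k * (volume G).toReal), fun a ha => ⟨ha.1, ?_⟩⟩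
    by_cases h1 : a.2 ≤ 1
    · exact h1.trans (le_max_left _ _)
    push Not at h1
    refine le_trans ?_ (le_max_right _ _)
    have h2 : volume (ball a.1 a.2) ≤ 2 ^ k * volume G :=
      ha.2.le.trans (by gcongr; exact inter_subset_left)
    rw [Real.volume_pi_ball _ ha.1, Fintype.card_fin] at h2
    have h3 : (2 * a.2) ^ n ≤ (2 : ℝ) ^ k * (volume G).toReal := by
      have h4 := ENNReal.toReal_mono (ENNReal.mul_ne_top (by simp) hGf.ne) h2
      rw [ENNReal.toReal_ofReal (by have := ha.1; positivity), ENNReal.toReal_mul] at h4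
      simpa using h4
    calc a.2 ≤ 2 * a.2 := by linarith
      _ ≤ (2 * a.2) ^ n := le_self_pow₀ (by linarith) (by omega)
      _ ≤ _ := h3
  obtain ⟨R, hR⟩ := hbd
  have h1 := vit (F := F) (G := G) (S := univ) (t := 2 ^ k) hR hG (fun a _ => subset_univ _)
    (fun a ha => by
      rw [← vol_ball _ ha.1]
      refine ha.2.le.trans ?_
      gcongr
      exact ball_subset_closedBall)
  rw [inter_univ] at h1
  refine (measure_mono ?_).trans h1
  rintro x ⟨z, r, hr, hx, hv⟩
  exact mem_iUnion₂.2 ⟨(z, r), ⟨hr, hv⟩, ball_subset_closedBall hx⟩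

/-- measure of the level sets in a cube containing a point outside of a level set -/
theorem lev_loc {G : Set (Fin n → ℝ)} (hG : MeasurableSet G) {k l : ℕ} (hkl : k + n ≤ l)
    {c x0 : Fin n → ℝ} {r0 : ℝ} (hr0 : 0 < r0) (hx0 : x0 ∈ closedBall c r0) (hl : x0 ∉ lev G l) :
    volume ((lev G k) ∩ closedBall c r0) * 2 ^ l ≤ 5 ^ n * 2 ^ k * 6 ^ n *
      volume (closedBall c r0) := by
  have hout : ∀ z r, 0 < r → x0 ∈ ball z r → 2 ^ l * volume (G ∩ ball z r) ≤ volume (ball z r) := by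
    intro z r hr hx
    by_contra hcon
    push Not at hcon
    exact hl ⟨z, r, hr, hx, hcon⟩
  set F : Set ((Fin n → ℝ) × ℝ) :=
    {a | 0 < a.2 ∧ (∃ x ∈ closedBall c r0, x ∈ ball a.1 a.2) ∧
      volume (ball a.1 a.2) < 2 ^ k * volume (G ∩ ball a.1 a.2)} with hF
  have hrad : ∀ a ∈ F, 0 < a.2 ∧ a.2 ≤ 2 * r0 := by
    rintro a ⟨ha, ⟨x, hxc, hxa⟩, hv⟩
    refine ⟨ha, ?_⟩
    by_contra hcon
    push Not at hcon
    have hx0a : x0 ∈ ball a.1 (2 * a.2) := by
      rw [mem_ball]
      rw [mem_closedBall] at hxc hx0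
      rw [mem_ball] at hxa
      calc dist x0 a.1 ≤ dist x0 c + dist c x + dist x a.1 := by
            linarith [dist_triangle x0 c a.1, dist_triangle c x a.1]
        _ < r0 + r0 + a.2 := by
            rw [dist_comm c x]; linarith
        _ < 2 * a.2 := by linarith
    have h1 := hout a.1 (2 * a.2) (by linarith) hx0a
    have h2 : volume (ball a.1 (2 * a.2)) = 2 ^ n * volume (ball a.1 a.2) := by
      rw [vol_ball _ (by linarith), vol_ball _ ha, vol_smul _ ha.le (by norm_num)]
      congr 1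
      rw [ENNReal.ofReal_pow (by norm_num)]; norm_num
    have h3 : 2 ^ l * volume (G ∩ ball a.1 a.2) ≤ 2 ^ n * volume (ball a.1 a.2) := by
      rw [← h2]
      refine le_trans ?_ h1
      gcongr
      linarith
    have h4 : (2 : ℝ≥0∞) ^ l * volume (G ∩ ball a.1 a.2)
        < 2 ^ l * volume (G ∩ ball a.1 a.2) := by
      calc (2 : ℝ≥0∞) ^ l * volume (G ∩ ball a.1 a.2) ≤ 2 ^ n * volume (ball a.1 a.2) := h3
        _ < 2 ^ n * (2 ^ k * volume (G ∩ ball a.1 a.2)) :=
            (ENNReal.mul_lt_mul_iff_right (by simp) (by simp)).2 hv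
        _ = 2 ^ (k + n) * volume (G ∩ ball a.1 a.2) := by rw [pow_add]; ring
        _ ≤ 2 ^ l * volume (G ∩ ball a.1 a.2) := by
            gcongr
            norm_num
    exact lt_irrefl _ h4
  have hsub : ∀ a ∈ F, closedBall a.1 a.2 ⊆ ball c (6 * r0) := by
    intro a ha y hy
    obtain ⟨ha0, ha2⟩ := hrad a ha
    obtain ⟨_, ⟨x, hxc, hxa⟩, _⟩ := ha
    rw [mem_closedBall] at hxc hy
    rw [mem_ball] at hxa ⊢
    calc dist y c ≤ dist y a.1 + dist a.1 x + dist x c := by
          linarith [dist_triangle y a.1 c, dist_triangle a.1 x c]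
      _ < a.2 + a.2 + r0 := by rw [dist_comm a.1 x]; linarith
      _ ≤ 6 * r0 := by linarith
  have h1 := vit (F := F) (G := G) (S := ball c (6 * r0)) (t := 2 ^ k) hrad hG hsub
    (fun a ha => by
      rw [← vol_ball _ ha.1]
      refine ha.2.2.le.trans ?_
      gcongr
      exact ball_subset_closedBall)
  have h2 : volume ((lev G k) ∩ closedBall c r0) ≤ 5 ^ n * 2 ^ k * volume (G ∩ ball c (6 * r0)) := by
    refine (measure_mono ?_).trans h1
    rintro x ⟨⟨z, r, hr, hx, hv⟩, hxc⟩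
    exact mem_iUnion₂.2 ⟨(z, r), ⟨hr, ⟨x, hxc, hx⟩, hv⟩, ball_subset_closedBall hx⟩
  have h3 : 2 ^ l * volume (G ∩ ball c (6 * r0)) ≤ 6 ^ n * volume (closedBall c r0) := by
    refine (hout c (6 * r0) (by linarith) ?_).trans ?_
    · rw [mem_closedBall] at hx0
      rw [mem_ball]; linarith
    · rw [vol_ball _ (by linarith), vol_smul _ hr0.le (by norm_num)]
      refine le_of_eq ?_
      congr 1
      rw [ENNReal.ofReal_pow (by norm_num)]; norm_num
  calc volume ((lev G k) ∩ closedBall c r0) * 2 ^ l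
      ≤ (5 ^ n * 2 ^ k * volume (G ∩ ball c (6 * r0))) * 2 ^ l := by gcongr
    _ = 5 ^ n * 2 ^ k * (2 ^ l * volume (G ∩ ball c (6 * r0))) := by ring
    _ ≤ 5 ^ n * 2 ^ k * (6 ^ n * volume (closedBall c r0)) := by gcongr
    _ = _ := by ring

end Pool.Agent.N246.BX
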